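import Mathlib
import Pool.Agent.Lib.MP_9a9339_an.Core
import Pool.Agent.Lib.MP_9a9339_an.ProblemDefs
import Pool.Agent.Lib.MP_9a9339_an.Geometry
import Pool.Agent.Lib.MP_9a9339_an.Modulus

section

set_option autoImplicit false

open Set Filter Topology Metric InnerProductSpace Laplacian MeasureTheory

namespace Pool.Agent.Lib.MP_9a9339_an

/-- second order Taylor bound at the origin -/
lemma extBall_taylor {d : ℕ} {r M : ℝ} (hr : 0 < r) (hM : 0 ≤ M) {g : E d → ℝ}
    (hg : ContDiffOn ℝ 2 g (ball 0 r))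
    (hb : ∀ x ∈ ball (0 : E d) r, ‖fderiv ℝ (fderiv ℝ g) x‖ ≤ M) {X : E d}
    (hX : X ∈ ball (0 : E d) r) :
    |g X - g 0 - fderiv ℝ g 0 X| ≤ M * ‖X‖ ^ 2 := by
  have hopen : IsOpen (ball (0 : E d) r) := isOpen_ball
  have hdiff : ∀ x ∈ ball (0 : E d) r, DifferentiableAt ℝ g x := fun x hx =>
    ((hg.contDiffAt (hopen.mem_nhds hx)).differentiableAt (by norm_num))
  have hdiff2 : ∀ x ∈ ball (0 : E d) r, DifferentiableAt ℝ (fderiv ℝ g) x := by
    intro x hx
    have h1 : ContDiffAt ℝ 1 (fderiv ℝ g) x :=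
      (hg.contDiffAt (hopen.mem_nhds hx)).fderiv_right (m := 1) (by norm_num)
    exact h1.differentiableAt (by norm_num)
  have h0 : (0 : E d) ∈ ball (0 : E d) r := mem_ball_self hr
  have hlip : ∀ y ∈ ball (0 : E d) r, ‖fderiv ℝ g y - fderiv ℝ g 0‖ ≤ M * ‖y‖ := by
    intro y hy
    have := Convex.norm_image_sub_le_of_norm_fderiv_le (f := fderiv ℝ g) (C := M)
      (s := ball (0 : E d) r) hdiff2 hb (convex_ball 0 r) h0 hy
    simpa using this
  have hsub : closedBall (0 : E d) ‖X‖ ⊆ ball (0 : E d) r := by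
    intro y hy
    rw [mem_closedBall, dist_zero_right] at hy
    rw [mem_ball, dist_zero_right] at hX ⊢
    exact lt_of_le_of_lt hy hX
  have hder : ∀ y ∈ closedBall (0 : E d) ‖X‖,
      HasFDerivWithinAt (fun z => g z - fderiv ℝ g 0 z) (fderiv ℝ g y - fderiv ℝ g 0)
        (closedBall (0 : E d) ‖X‖) y := by
    intro y hy
    exact (((hdiff y (hsub hy)).hasFDerivAt).sub
      ((fderiv ℝ g 0).hasFDerivAt)).hasFDerivWithinAt
  have hbound : ∀ y ∈ closedBall (0 : E d) ‖X‖, ‖fderiv ℝ g y - fderiv ℝ g 0‖ ≤ M * ‖X‖ := by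
    intro y hy
    refine (hlip y (hsub hy)).trans ?_
    rw [mem_closedBall, dist_zero_right] at hy
    exact mul_le_mul_of_nonneg_left hy hM
  have h1 := Convex.norm_image_sub_le_of_norm_hasFDerivWithin_le hder hbound
    (convex_closedBall 0 ‖X‖) (mem_closedBall_self (norm_nonneg X))
    (by rw [mem_closedBall, dist_zero_right] : X ∈ closedBall (0 : E d) ‖X‖)
  simp only [map_zero, sub_zero, Real.norm_eq_abs] at h1
  calc |g X - g 0 - fderiv ℝ g 0 X| = |g X - fderiv ℝ g 0 X - g 0| := by ring_nf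
    _ ≤ M * ‖X‖ * ‖X‖ := h1
    _ = M * ‖X‖ ^ 2 := by ring

/-- T13: uniformly `C^{2,γ}` sets satisfy the uniform exterior ball condition. -/
theorem UniformlyC2.exists_ext_ball {d : ℕ} {γ : ℝ} {Ω : Set (E d)} (hΩ : IsOpen Ω)
    (h : UniformlyC2 γ Ω) :
    ∃ ρ > 0, ∀ p ∈ frontier Ω, ∀ s, 0 < s → s ≤ ρ → ∃ q, dist p q = s ∧ Disjoint (ball q s) Ω := by
  obtain ⟨r, hr, M, hM⟩ := h
  set M' : ℝ := max M 1 with hM'def
  have hM'1 : 1 ≤ M' := le_max_right _ _
  have hM'pos : 0 < M' := by linarith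
  refine ⟨min (r / 2) (1 / (2 * M')), by positivity, ?_⟩
  intro p hp s hs0 hs
  obtain ⟨e, g, ⟨he, hinv, hepi⟩, ⟨hsm, hbd⟩, -⟩ := hM p hp
  have hs1 : s ≤ r / 2 := hs.trans (min_le_left _ _)
  have hs2 : s ≤ 1 / (2 * M') := hs.trans (min_le_right _ _)
  have h0 : (0 : E d) ∈ ball (0 : E d) r := mem_ball_self hr
  have hopen : IsOpen (ball (0 : E d) r) := isOpen_ball
  have hdiff0 : DifferentiableAt ℝ g 0 :=
    (hsm.contDiffAt (hopen.mem_nhds h0)).differentiableAt (by norm_num)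
  -- `g 0 = 0`
  have hp1 : p ∉ Ω := by
    intro hpΩ
    rw [hΩ.frontier_eq] at hp
    exact hp.2 hpΩ
  have hp2 : p ∈ closure Ω := frontier_subset_closure hp
  have hg0 : g 0 = 0 := by
    apply le_antisymm
    · have hne : (𝓝[Ω] p).NeBot := mem_closure_iff_nhdsWithin_neBot.1 hp2
      have hcont : ContinuousAt (fun x => inner ℝ e (x - p) - g (x - p)) p := by
        have h1 : ContinuousAt (fun x : E d => x - p) p := by fun_prop
        have h2 : ContinuousAt g (p - p) := by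
          rw [sub_self]
          exact hdiff0.continuousAt
        have h3 : ContinuousAt (fun x => g (x - p)) p :=
          ContinuousAt.comp (f := fun x : E d => x - p) (g := g) h2 h1
        have h4 : ContinuousAt (fun x : E d => inner ℝ e (x - p)) p := by fun_prop
        exact h4.sub h3
      have htend : Tendsto (fun x => inner ℝ e (x - p) - g (x - p)) (𝓝[Ω] p)
          (𝓝 (inner ℝ e (p - p) - g (p - p))) := hcont.mono_left nhdsWithin_le_nhds
      have hev : ∀ᶠ x in 𝓝[Ω] p, 0 ≤ inner ℝ e (x - p) - g (x - p) := by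
        have hb : ball p r ∈ 𝓝[Ω] p := mem_nhdsWithin_of_mem_nhds (ball_mem_nhds p hr)
        filter_upwards [hb, self_mem_nhdsWithin] with x hx1 hx2
        have := (hepi x hx1).1 hx2
        linarith
      have h5 := ge_of_tendsto htend hev
      rw [sub_self, inner_zero_right] at h5
      linarith
    · by_contra hlt
      have hlt : g 0 < 0 := not_le.1 hlt
      refine hp1 ((hepi p (mem_ball_self hr)).2 ?_)
      rw [sub_self, inner_zero_right]
      exact hlt
  -- the gradient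
  set A : E d →L[ℝ] ℝ := fderiv ℝ g 0 with hA
  set a : E d := (InnerProductSpace.toDual ℝ (E d)).symm A with ha
  have haX : ∀ X : E d, inner ℝ a X = A X := by
    intro X
    rw [ha, InnerProductSpace.toDual_symm_apply]
  have hAe : A e = 0 := by
    have h1 : HasDerivAt (fun t : ℝ => g (0 + t • e)) (A e) 0 := by
      have h2 : HasFDerivAt g A (0 + (0 : ℝ) • e) := by
        rw [zero_smul, add_zero]
        exact hdiff0.hasFDerivAt
      have h3 : HasDerivAt (fun t : ℝ => (0 : E d) + t • e) e 0 := by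
        have h4 : HasDerivAt (fun t : ℝ => t • e) ((1 : ℝ) • e) 0 :=
          (hasDerivAt_id (0 : ℝ)).smul_const e
        rw [one_smul] at h4
        exact h4.const_add 0
      exact h2.comp_hasDerivAt 0 h3
    have h2 : (fun t : ℝ => g (0 + t • e)) = fun _ => g 0 := by
      funext t
      exact hinv 0 t
    rw [h2] at h1
    exact h1.unique (hasDerivAt_const 0 (g 0))
  set N : E d := e - a with hN
  have hNX : ∀ X : E d, inner ℝ N X = inner ℝ e X - A X := by
    intro X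
    rw [hN, inner_sub_left, haX]
  have hNn : 1 ≤ ‖N‖ := by
    have h1 : ‖N‖ ^ 2 = 1 + ‖a‖ ^ 2 := by
      rw [hN, @norm_sub_sq_real, he, real_inner_comm, haX, hAe]
      ring
    have h2 : 1 ≤ ‖N‖ ^ 2 := by
      rw [h1]
      nlinarith [sq_nonneg ‖a‖]
    nlinarith [norm_nonneg N]
  have hNpos : 0 < ‖N‖ := by linarith
  refine ⟨p - (s / ‖N‖) • N, ?_, ?_⟩
  · rw [dist_eq_norm, sub_sub_cancel, norm_smul, Real.norm_of_nonneg (by positivity)]
    field_simp
  · rw [Set.disjoint_left]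
    intro x hx hxΩ
    rw [mem_ball, dist_eq_norm] at hx
    set X : E d := x - p with hX
    have h1 : x - (p - (s / ‖N‖) • N) = X + (s / ‖N‖) • N := by
      rw [hX]
      abel
    rw [h1] at hx
    have hc : ‖(s / ‖N‖) • N‖ = s := by
      rw [norm_smul, Real.norm_of_nonneg (by positivity)]
      field_simp
    have hXr : ‖X‖ < r := by
      have h2 : ‖X‖ ≤ ‖X + (s / ‖N‖) • N‖ + ‖(s / ‖N‖) • N‖ := by
        have := norm_sub_le (X + (s / ‖N‖) • N) ((s / ‖N‖) • N)
        rwa [add_sub_cancel_right] at this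
      rw [hc] at h2
      linarith
    have hXb : X ∈ ball (0 : E d) r := by
      rw [mem_ball, dist_zero_right]
      exact hXr
    have hxb : x ∈ ball p r := by
      rw [mem_ball, dist_eq_norm]
      exact hXr
    have h3 : g X < inner ℝ e X := (hepi x hxb).1 hxΩ
    have h4 : |g X - g 0 - A X| ≤ M' * ‖X‖ ^ 2 := by
      refine extBall_taylor hr hM'pos.le hsm ?_ hXb
      intro y hy
      exact ((hbd y hy).2.2).trans (le_max_left _ _)
    rw [hg0, sub_zero] at h4
    have h5 : ‖X + (s / ‖N‖) • N‖ ^ 2 < s ^ 2 := by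
      have := norm_nonneg (X + (s / ‖N‖) • N)
      nlinarith
    rw [@norm_add_sq_real, hc, inner_smul_right] at h5
    have h6 : 2 * (s / ‖N‖ * inner ℝ X N) < -‖X‖ ^ 2 := by linarith
    have h7 : inner ℝ X N = inner ℝ e X - A X := by
      rw [real_inner_comm, hNX]
    rw [h7] at h6
    set w : ℝ := inner ℝ e X - A X with hw
    have h8 : 2 * s * w < -(‖X‖ ^ 2 * ‖N‖) := by
      have h9 : 2 * (s / ‖N‖ * w) * ‖N‖ < -‖X‖ ^ 2 * ‖N‖ := mul_lt_mul_of_pos_right h6 hNpos
      have h10 : 2 * (s / ‖N‖ * w) * ‖N‖ = 2 * s * w := by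
        field_simp
      rw [h10] at h9
      linarith
    have h9 : 2 * s * w < -‖X‖ ^ 2 := by
      have : ‖X‖ ^ 2 * 1 ≤ ‖X‖ ^ 2 * ‖N‖ := mul_le_mul_of_nonneg_left hNn (sq_nonneg _)
      linarith
    have h10 : -(M' * ‖X‖ ^ 2) < w := by
      have := (abs_le.1 h4).1
      rw [hw]
      linarith
    have h11 : 2 * s * M' ≤ 1 := by
      have := mul_le_mul_of_nonneg_right hs2 (by positivity : (0 : ℝ) ≤ 2 * M')
      rw [div_mul_cancel₀ _ (by positivity)] at this
      linarith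
    have h12 : 2 * s * (-(M' * ‖X‖ ^ 2)) < 2 * s * w :=
      mul_lt_mul_of_pos_left h10 (by positivity)
    have h13 : 2 * s * M' * ‖X‖ ^ 2 ≤ 1 * ‖X‖ ^ 2 :=
      mul_le_mul_of_nonneg_right h11 (sq_nonneg _)
    linarith

end Pool.Agent.Lib.MP_9a9339_an
end

section

set_option autoImplicit false

open Set Filter Topology Metric InnerProductSpace Laplacian MeasureTheory

namespace Pool.Agent.Lib.MP_9a9339_an

open Pool.Agent.Lib.MP_2166fc_an (Sp)

variable {n : ℕ}

lemma mv3_lap_normSq (x y : Sp n) : Δ (fun z : Sp n => ‖z - x‖ ^ 2) y = 2 * n := by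
  have := Pool.Agent.Lib.MP_2166fc_an.lap_radial (Ψ := fun s => s) (Ψ1 := fun _ => 1) (b := 0)
    (x0 := x) (x := y) (Eventually.of_forall fun q => hasDerivAt_id q) (hasDerivAt_const _ _)
  simpa using this

lemma mv3_contDiff_normSq (x : Sp n) : ContDiff ℝ 2 (fun z : Sp n => ‖z - x‖ ^ 2) :=
  (contDiff_id.sub contDiff_const).norm_sq ℝ

lemma mv3_lap_add_mul {A B : Sp n → ℝ} {y : Sp n} (a : ℝ) (hA : ContDiffAt ℝ 2 A y)
    (hB : ContDiffAt ℝ 2 B y) : Δ (fun z => A z + a * B z) y = Δ A y + a * Δ B y := by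
  have hB' : ContDiffAt ℝ 2 (fun z => a * B z) y := contDiffAt_const.mul hB
  have h1 : Δ (fun z => A z + a * B z) y = Δ A y + Δ (fun z => a * B z) y :=
    hA.laplacian_add hB'
  have h2 : Δ (fun z => a * B z) y = a * Δ B y := by
    have := laplacian_smul (𝕜 := ℝ) a hB
    simpa [Pi.smul_def] using this
  rw [h1, h2]

lemma mv3_lap_mul {B : Sp n → ℝ} {y : Sp n} (a : ℝ) (hB : ContDiffAt ℝ 2 B y) :
    Δ (fun z => a * B z) y = a * Δ B y := by
  have := laplacian_smul (𝕜 := ℝ) a hB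
  simpa [Pi.smul_def] using this

/-- T7 (quantitative strong maximum principle for `σ v - u(λ·)`). -/
theorem mv3 {Ω : Set (Sp n)} (hΩ : IsOpen Ω) {f : ℝ → ℝ} {u v : Sp n → ℝ}
    (hu : Sol Ω f u) (hv : Sol Ω f v) {x : Sp n} {r C G lam σ : ℝ} (hr : 0 < r) (hC : 0 ≤ C)
    (hG : 0 < G) (hlam : 0 < lam) (hσ : 0 < σ) (hball : closedBall x r ⊆ Ω)
    (hw : ∀ y ∈ closedBall x r, u (lam • y) ≤ σ * v y)
    (h1 : ∀ y ∈ closedBall x r, G ≤ σ * f (v y))
    (h2 : ∀ y ∈ closedBall x r, lam • y ∈ Ω →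
      G - C * (σ * v y - u (lam • y)) ≤ σ * f (v y) - lam ^ 2 * f (u (lam • y))) :
    G * r ^ 2 / (2 * n + C * r ^ 2 + 1) ≤ σ * v x - u (lam • x) := by
  by_contra hcon
  push Not at hcon
  set D : ℝ := 2 * n + C * r ^ 2 + 1 with hD
  have hn0 : (0 : ℝ) ≤ n := Nat.cast_nonneg n
  have hCr : 0 ≤ C * r ^ 2 := by positivity
  have hDpos : 0 < D := by rw [hD]; positivity
  set ε : ℝ := 1 / D with hε
  have hεpos : 0 < ε := by rw [hε]; positivity
  have hεD : ε * D = 1 := by rw [hε]; field_simp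
  have hε1 : ε * (2 * n) + ε * (C * r ^ 2) + ε = 1 := by
    rw [← hεD, hD]; ring
  have hcon' : σ * v x - u (lam • x) < ε * G * r ^ 2 := by
    have : G * r ^ 2 / D = ε * G * r ^ 2 := by rw [hε]; ring
    rwa [this] at hcon
  set g : Sp n → ℝ := fun y => (σ * v y + (-1) * u (lam • y)) + ε * G * ‖y - x‖ ^ 2 with hg
  have hgc : Continuous g := by
    have hc1 := hv.cont
    have hc2 : Continuous fun y : Sp n => u (lam • y) := hu.cont.comp (continuous_const_smul lam)
    have hc3 : Continuous fun y : Sp n => ‖y - x‖ ^ 2 := by fun_prop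
    exact ((continuous_const.mul hc1).add (continuous_const.mul hc2)).add
      (continuous_const.mul hc3)
  obtain ⟨y, hy, hmin⟩ := (isCompact_closedBall x r).exists_isMinOn
    ⟨x, mem_closedBall_self hr.le⟩ hgc.continuousOn
  have hgx : g x = σ * v x - u (lam • x) := by
    rw [hg]; simp; ring
  have hgy : g y < ε * G * r ^ 2 := lt_of_le_of_lt (hmin (mem_closedBall_self hr.le))
    (by rw [hgx]; exact hcon')
  have hεG : 0 < ε * G := mul_pos hεpos hG
  have hwy : σ * v y - u (lam • y) < ε * G * r ^ 2 := by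
    have h3 : 0 ≤ ε * G * ‖y - x‖ ^ 2 := by positivity
    have h4 : g y = (σ * v y + (-1) * u (lam • y)) + ε * G * ‖y - x‖ ^ 2 := rfl
    linarith
  have hyball : y ∈ ball x r := by
    rw [mem_ball, dist_eq_norm]
    by_contra h3
    push Not at h3
    have h4 : r ^ 2 ≤ ‖y - x‖ ^ 2 := by
      exact pow_le_pow_left₀ hr.le h3 2
    have h5 := hw y hy
    have h6 : g y = (σ * v y + (-1) * u (lam • y)) + ε * G * ‖y - x‖ ^ 2 := rfl
    have h7 : ε * G * r ^ 2 ≤ ε * G * ‖y - x‖ ^ 2 := mul_le_mul_of_nonneg_left h4 hεG.le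
    linarith
  have hyΩ : y ∈ Ω := hball hy
  have hnhds : ∀ᶠ z in 𝓝 y, z ∈ closedBall x r := by
    filter_upwards [isOpen_ball.mem_nhds hyball] with z hz
    exact ball_subset_closedBall hz
  have hvy : ContDiffAt ℝ 2 v y := hv.smooth.contDiffAt (hΩ.mem_nhds hyΩ)
  have hσv : ContDiffAt ℝ 2 (fun z => σ * v z) y := contDiffAt_const.mul hvy
  have hnsq : ContDiffAt ℝ 2 (fun z : Sp n => ‖z - x‖ ^ 2) y :=
    (mv3_contDiff_normSq x).contDiffAt
  by_cases hyl : lam • y ∈ Ω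
  · have huy : ContDiffAt ℝ 2 u (lam • y) := hu.smooth.contDiffAt (hΩ.mem_nhds hyl)
    have huly : ContDiffAt ℝ 2 (fun z => u (lam • z)) y := by
      have h3 : ContDiffAt ℝ 2 (fun z : Sp n => lam • z) y :=
        (contDiff_const_smul lam).contDiffAt
      exact ContDiffAt.comp (g := u) (f := fun z : Sp n => lam • z) y huy h3
    have hA : ContDiffAt ℝ 2 (fun z => σ * v z + (-1) * u (lam • z)) y :=
      hσv.add (contDiffAt_const.mul huly)
    have hgC : ContDiffAt ℝ 2 g y := hA.add (contDiffAt_const.mul hnsq)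
    have hloc : IsLocalMin g y := by
      filter_upwards [hnhds] with z hz
      exact hmin hz
    have h3 := Pool.Agent.Lib.MP_2166fc_an.lap_nonneg_of_isLocalMin hgC hloc
    have h4 : Δ g y = Δ (fun z => σ * v z + (-1) * u (lam • z)) y +
        ε * G * Δ (fun z : Sp n => ‖z - x‖ ^ 2) y := mv3_lap_add_mul (ε * G) hA hnsq
    rw [h4, mv3_lap_normSq, mv3_lap_add_mul (-1) hσv huly, mv3_lap_mul σ hvy,
      lap_comp_smul huy, hv.eq y hyΩ, hu.eq _ hyl] at h3
    have h5 := h2 y hy hyl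
    have h6 : C * (σ * v y - u (lam • y)) ≤ C * (ε * G * r ^ 2) :=
      mul_le_mul_of_nonneg_left hwy.le hC
    have h7 : G * (ε * (2 * n) + ε * (C * r ^ 2) + ε) = G * 1 := by rw [hε1]
    nlinarith [mul_pos hεpos hG]
  · have hu0 : u (lam • y) = 0 := hu.zero _ hyl
    have hgC : ContDiffAt ℝ 2 (fun z => σ * v z + ε * G * ‖z - x‖ ^ 2) y :=
      hσv.add (contDiffAt_const.mul hnsq)
    have hloc : IsLocalMin (fun z => σ * v z + ε * G * ‖z - x‖ ^ 2) y := by
      filter_upwards [hnhds] with z hz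
      have h3 : g y ≤ g z := hmin hz
      have h4 : g y = (σ * v y + (-1) * u (lam • y)) + ε * G * ‖y - x‖ ^ 2 := rfl
      have h5 : g z = (σ * v z + (-1) * u (lam • z)) + ε * G * ‖z - x‖ ^ 2 := rfl
      have h6 := hu.nonneg (lam • z)
      rw [h4, h5, hu0] at h3
      linarith
    have h3 := Pool.Agent.Lib.MP_2166fc_an.lap_nonneg_of_isLocalMin hgC hloc
    rw [mv3_lap_add_mul (ε * G) hσv hnsq, mv3_lap_normSq, mv3_lap_mul σ hvy, hv.eq y hyΩ] at h3
    have h5 := h1 y hy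
    have h7 : G * (ε * (2 * n) + ε * (C * r ^ 2) + ε) = G * 1 := by rw [hε1]
    nlinarith [mul_pos hεpos hG, mul_nonneg hG.le (mul_nonneg hεpos.le hCr)]

end Pool.Agent.Lib.MP_9a9339_an
end

section

set_option autoImplicit false

open Set Filter Topology Metric InnerProductSpace Laplacian MeasureTheory

namespace Pool.Agent.Lib.MP_9a9339_an

open Pool.Agent.Lib.MP_2166fc_an (Sp)

variable {n : ℕ}

lemma sm_react_nonneg {f : ℝ → ℝ} {c L : ℝ} (hf : React f c L) {s : ℝ}
    (hs : s ∈ Icc (0:ℝ) 1) : 0 ≤ f s :=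
  le_trans (mul_nonneg hf.c_pos.le (mul_nonneg hs.1 (sub_nonneg.2 hs.2))) (hf.lower s hs)

lemma sm_lap_one_sub {u : Sp n → ℝ} {y : Sp n} (h : ContDiffAt ℝ 2 u y) :
    Δ (fun z => 1 - u z) y = - Δ u y := by
  have h1 : Δ (fun z => (fun _ => (1 : ℝ)) z - u z) y = Δ (fun _ : Sp n => (1 : ℝ)) y - Δ u y :=
    (contDiffAt_const : ContDiffAt ℝ 2 (fun _ : Sp n => (1 : ℝ)) y).laplacian_sub h
  have h2 : Δ (fun _ : Sp n => (1 : ℝ)) y = 0 := by
    rw [laplacian_const]; rfl
  have h3 : (fun z => 1 - u z) = fun z => (fun _ => (1 : ℝ)) z - u z := rfl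
  rw [h3, h1, h2, zero_sub]

/-- T3: the modulus of continuity for solutions `u` and for `1 - u`. -/
theorem sol_modulus (n : ℕ) {f : ℝ → ℝ} {c L R ε : ℝ} (hf : React f c L) (hR : 0 < R)
    (hε : 0 < ε) :
    ∃ δ > 0, δ < R ∧ ∀ (Ω : Set (Sp n)) (u : Sp n → ℝ) (x : Sp n), IsOpen Ω → Sol Ω f u →
      ball x R ⊆ Ω → ∀ y ∈ closedBall x δ,
        |u y - u x| ≤ ε * u x ∧ |u y - u x| ≤ ε * (1 - u x) := by
  obtain ⟨δ, hδ, hδR, hmod⟩ := modulus n (L := L) hf.L_pos.le hR hε
  refine ⟨δ, hδ, hδR, fun Ω u x hΩ hu hsub y hy => ⟨?_, ?_⟩⟩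
  · refine hmod u x (hu.smooth.mono hsub) (fun z _ => hu.nonneg z) (fun z hz => ?_) y hy
    rw [hu.eq z (hsub hz), abs_neg, abs_of_nonneg (sm_react_nonneg hf (hu.mem_Icc z))]
    exact hf.upper0 _ (hu.mem_Icc z)
  · have h := hmod (fun z => 1 - u z) x ?_ (fun z _ => sub_nonneg.2 (hu.le_one z)) ?_ y hy
    · have h2 : (1 - u y) - (1 - u x) = - (u y - u x) := by ring
      simp only [h2, abs_neg] at h
      exact h
    · exact contDiffOn_const.sub (hu.smooth.mono hsub)
    · intro z hz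
      have hz' : ContDiffAt ℝ 2 u z := hu.smooth.contDiffAt (hΩ.mem_nhds (hsub hz))
      rw [sm_lap_one_sub hz', hu.eq z (hsub hz), neg_neg,
        abs_of_nonneg (sm_react_nonneg hf (hu.mem_Icc z))]
      exact hf.upper1 _ (hu.mem_Icc z)

/-- T3 (strong maximum principle at the level `1`). -/
theorem lt_one {Ω : Set (Sp n)} (hΩ : IsOpen Ω) (hc : IsPreconnected Ω) (hne : Ω ≠ univ)
    {f : ℝ → ℝ} {c L : ℝ} (hf : React f c L) {u : Sp n → ℝ} (hu : Sol Ω f u) (x : Sp n) :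
    u x < 1 := by
  by_contra hx
  have hx1 : u x = 1 := le_antisymm (hu.le_one x) (not_lt.1 hx)
  have hxΩ : x ∈ Ω := hu.mem_of_pos (by rw [hx1]; exact one_pos)
  have hclosed : IsClosed {y : Sp n | u y = 1} := isClosed_eq hu.cont continuous_const
  have hAopen : IsOpen {y : Sp n | u y = 1} := by
    rw [Metric.isOpen_iff]
    intro y hy
    have hy1 : u y = 1 := hy
    have hyΩ : y ∈ Ω := hu.mem_of_pos (by rw [hy1]; exact one_pos)
    obtain ⟨R, hR, hsub⟩ := Metric.isOpen_iff.1 hΩ y hyΩ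
    obtain ⟨δ, hδ, -, hmod⟩ := sol_modulus n hf hR one_pos
    refine ⟨δ, hδ, fun z hz => ?_⟩
    have h := (hmod Ω u y hΩ hu hsub z (ball_subset_closedBall hz)).2
    rw [hy1, sub_self, mul_zero] at h
    have h0 := abs_nonpos_iff.1 h
    show u z = 1
    linarith
  have hsub : Ω ⊆ {y : Sp n | u y = 1} := by
    refine hc.subset_of_closure_inter_subset hAopen ⟨x, hxΩ, hx1⟩ ?_
    intro y hy
    have := hclosed.closure_subset_iff.2 (le_refl _) hy.1
    exact this
  have hcl : IsClosed Ω := by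
    rw [← closure_subset_iff_isClosed]
    intro p hp
    have hp1 : u p = 1 := hclosed.closure_subset_iff.2 hsub hp
    exact hu.mem_of_pos (by rw [hp1]; exact one_pos)
  rcases isClopen_iff.1 ⟨hcl, hΩ⟩ with h | h
  · rw [h] at hxΩ
    exact hxΩ
  · exact hne h

end Pool.Agent.Lib.MP_9a9339_an
end

section

set_option autoImplicit false

open Set Filter Topology Metric InnerProductSpace Laplacian MeasureTheory

namespace Pool.Agent.Lib.MP_9a9339_an

/-- compactness argument for the lower bound -/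
lemma reactConst_lower {f : ℝ → ℝ} {a b : ℝ} (ha : 0 < a) (hb : b < 0)
    (h0 : HasDerivWithinAt f a (Ici 0) 0) (h1 : HasDerivWithinAt f b (Ici 0) 1)
    (f0 : f 0 = 0) (f1 : f 1 = 0) (hcont : ContinuousOn f (Ici 0))
    (hpos : ∀ s, 0 < s → s < 1 → 0 < f s) :
    ∃ c : ℝ, 0 < c ∧ ∀ s ∈ Icc (0:ℝ) 1, c * (s * (1 - s)) ≤ f s := by
  have key : ∃ c : ℝ, 0 < c ∧ ∀ s ∈ Icc (0:ℝ) 1, s ∈ Icc (0:ℝ) 1 → c * (s * (1 - s)) ≤ f s := by
    refine IsCompact.induction_on (isCompact_Icc (a := (0:ℝ)) (b := 1))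
      (p := fun S => ∃ c : ℝ, 0 < c ∧ ∀ s ∈ S, s ∈ Icc (0:ℝ) 1 → c * (s * (1 - s)) ≤ f s)
      ⟨1, one_pos, fun s hs => absurd hs (notMem_empty s)⟩ ?_ ?_ ?_
    · rintro S T hST ⟨c, hc, h⟩
      exact ⟨c, hc, fun s hs => h s (hST hs)⟩
    · rintro S T ⟨c, hc, h⟩ ⟨d, hd, h'⟩
      refine ⟨min c d, lt_min hc hd, ?_⟩
      rintro s (hs | hs) hs1
      · have hnn : 0 ≤ s * (1 - s) := mul_nonneg hs1.1 (by linarith [hs1.2])
        exact (mul_le_mul_of_nonneg_right (min_le_left _ _) hnn).trans (h s hs hs1)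
      · have hnn : 0 ≤ s * (1 - s) := mul_nonneg hs1.1 (by linarith [hs1.2])
        exact (mul_le_mul_of_nonneg_right (min_le_right _ _) hnn).trans (h' s hs hs1)
    · intro x hx
      rcases eq_or_lt_of_le hx.1 with hx0 | hx0
      · -- x = 0
        subst hx0
        have hlo := (hasDerivWithinAt_iff_isLittleO.1 h0).def (half_pos ha)
        have hlo' : ∀ᶠ y in 𝓝[Icc (0:ℝ) 1] 0,
            ‖f y - f 0 - (y - 0) • a‖ ≤ a / 2 * ‖y - 0‖ :=
          nhdsWithin_mono _ (fun y hy => hy.1) hlo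
        refine ⟨_, hlo', a / 2, half_pos ha, ?_⟩
        intro s hs hs1
        have hs' : ‖f s - f 0 - (s - 0) • a‖ ≤ a / 2 * ‖s - 0‖ := hs
        rw [f0, Real.norm_eq_abs, Real.norm_eq_abs, sub_zero, sub_zero, smul_eq_mul,
          abs_of_nonneg hs1.1] at hs'
        have := (abs_le.1 hs').1
        have h3 : s * (1 - s) ≤ s := by nlinarith [hs1.1]
        nlinarith
      · rcases eq_or_lt_of_le hx.2 with hx1 | hx1
        · subst hx1
          have hb' : 0 < -b := by linarith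
          have hlo := (hasDerivWithinAt_iff_isLittleO.1 h1).def (half_pos hb')
          have hlo' : ∀ᶠ y in 𝓝[Icc (0:ℝ) 1] 1,
              ‖f y - f 1 - (y - 1) • b‖ ≤ -b / 2 * ‖y - 1‖ :=
            nhdsWithin_mono _ (fun y hy => hy.1) hlo
          refine ⟨_, hlo', -b / 2, half_pos hb', ?_⟩
          intro s hs hs1
          have hs' : ‖f s - f 1 - (s - 1) • b‖ ≤ -b / 2 * ‖s - 1‖ := hs
          rw [f1, Real.norm_eq_abs, Real.norm_eq_abs, sub_zero, smul_eq_mul,
            abs_of_nonpos (by linarith [hs1.2] : s - 1 ≤ 0)] at hs'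
          have := (abs_le.1 hs').1
          have h3 : s * (1 - s) ≤ 1 - s := by nlinarith [hs1.1, hs1.2]
          nlinarith
        · have hfx := hpos x hx0 hx1
          have hc : ContinuousWithinAt f (Icc (0:ℝ) 1) x :=
            (hcont x hx.1).mono (fun y hy => hy.1)
          have hev : ∀ᶠ y in 𝓝[Icc (0:ℝ) 1] x, f x / 2 < f y :=
            hc.eventually (lt_mem_nhds (by linarith))
          refine ⟨_, hev, f x / 2, half_pos hfx, ?_⟩
          intro s hs hs1
          have hs' : f x / 2 < f s := hs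
          have h3 : s * (1 - s) ≤ 1 := by nlinarith [hs1.1, hs1.2]
          nlinarith
  obtain ⟨c, hc, h⟩ := key
  exact ⟨c, hc, fun s hs => h s hs hs⟩

/-- T12: a positive reaction satisfies the quantitative bounds. -/
theorem IsPositiveReaction.exists_react {γ : ℝ} (hγ : 0 < γ) {f : ℝ → ℝ}
    (hf : IsPositiveReaction γ f) : ∃ c L, React f c L := by
  obtain ⟨f', hd, hH⟩ := hf.smooth
  obtain ⟨C, hC⟩ := hH 1
  have hcont : ContinuousOn f (Ici 0) := fun s hs => (hd s hs).continuousWithinAt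
  have e0 : derivWithin f (Ici 0) 0 = f' 0 :=
    (hd 0 self_mem_Ici).derivWithin (uniqueDiffOn_Ici 0 0 self_mem_Ici)
  have e1 : derivWithin f (Ici 0) 1 = f' 1 :=
    (hd 1 (mem_Ici.2 zero_le_one)).derivWithin (uniqueDiffOn_Ici 0 1 (mem_Ici.2 zero_le_one))
  have ha : 0 < f' 0 := e0 ▸ hf.deriv_zero
  have hb : f' 1 < 0 := e1 ▸ hf.deriv_one
  obtain ⟨c, hc, hlow⟩ := reactConst_lower ha hb (hd 0 self_mem_Ici)
    (hd 1 (mem_Ici.2 zero_le_one)) hf.at_zero hf.at_one hcont hf.pos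
  -- bound of the derivative
  have hB : ∀ s ∈ Icc (0:ℝ) 1, ‖f' s‖ ≤ |f' 0| + |C| := by
    intro s hs
    have h1 := hC s hs 0 ⟨le_rfl, zero_le_one⟩
    have h2 : |s - 0| ^ γ ≤ 1 := by
      rw [sub_zero, abs_of_nonneg hs.1]
      exact Real.rpow_le_one hs.1 hs.2 hγ.le
    have h3 : C * |s - 0| ^ γ ≤ |C| := by
      calc C * |s - 0| ^ γ ≤ |C| * |s - 0| ^ γ :=
            mul_le_mul_of_nonneg_right (le_abs_self C) (Real.rpow_nonneg (abs_nonneg _) _)
        _ ≤ |C| * 1 := mul_le_mul_of_nonneg_left h2 (abs_nonneg C)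
        _ = |C| := mul_one _
    rw [Real.norm_eq_abs]
    calc |f' s| = |f' 0 + (f' s - f' 0)| := by ring_nf
      _ ≤ |f' 0| + |f' s - f' 0| := abs_add_le _ _
      _ ≤ |f' 0| + |C| := by linarith
  set B : ℝ := |f' 0| + |C| with hBdef
  have hB0 : 0 ≤ B := by positivity
  have hlip : ∀ s ∈ Icc (0:ℝ) 1, ∀ t ∈ Icc (0:ℝ) 1, |f s - f t| ≤ (B + 1) * |s - t| := by
    intro s hs t ht
    have h := Convex.norm_image_sub_le_of_norm_hasDerivWithin_le (f := f) (f' := f')
      (s := Icc (0:ℝ) 1) (C := B) (x := t) (y := s)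
      (fun x hx => (hd x hx.1).mono (fun y hy => hy.1)) hB (convex_Icc 0 1) ht hs
    rw [Real.norm_eq_abs, Real.norm_eq_abs] at h
    nlinarith [abs_nonneg (s - t)]
  refine ⟨c, B + 1, hc, by linarith, hlow, ?_, ?_, hlip⟩
  · intro s hs
    have h := hlip s hs 0 ⟨le_rfl, zero_le_one⟩
    rw [hf.at_zero, sub_zero, sub_zero, abs_of_nonneg hs.1] at h
    exact (le_abs_self _).trans h
  · intro s hs
    have h := hlip s hs 1 ⟨zero_le_one, le_rfl⟩
    rw [hf.at_one, sub_zero, abs_of_nonpos (by linarith [hs.2] : s - 1 ≤ 0)] at h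
    have := (le_abs_self _).trans h
    linarith

end Pool.Agent.Lib.MP_9a9339_an
end
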