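import Mathlib
import Pool.Agent.Lib.MP_9a9339_an.Geometry
import Pool.Agent.Lib.MP_9a9339_an.Ex.Defs
import Pool.Agent.Lib.MP_9a9339_an.Ex.MviSmooth
import Pool.Agent.Lib.MP_2166fc_an.Radial
import Pool.Agent.Lib.MP_9a9339_an.Ex.MaxPrinciple

section

set_option autoImplicit false

open Set Filter Topology Metric InnerProductSpace Laplacian MeasureTheory
open scoped ContDiff

namespace Pool.Agent.Lib.MP_9a9339_an

open Pool.Agent.Lib.MP_2166fc_an (Sp)

variable {n : ℕ}

/-- X17: exterior-star domains contain arbitrarily large balls. -/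
theorem Dom.exists_large_ball {Ω : Set (Sp n)} {r₀ ρ : ℝ} (hΩ : Dom Ω r₀ ρ) (hne : Ω.Nonempty)
    (R : ℝ) : ∃ x, closedBall x R ⊆ Ω := by
  obtain ⟨x₁, hx₁⟩ := hne
  have hr := hΩ.r₀_pos
  obtain ⟨A, hA0, hAR⟩ : ∃ A : ℝ, 0 < A ∧ R < A :=
    ⟨max R 0 + 1, by linarith [le_max_right R 0], by linarith [le_max_left R 0]⟩
  have hs : 0 < r₀ + A := by linarith
  refine ⟨((r₀ + A) / r₀) • x₁, fun y hy => ?_⟩
  by_contra hyΩ
  rw [mem_closedBall, dist_comm, dist_eq_norm] at hy
  set x := ((r₀ + A) / r₀) • x₁ with hx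
  have hz : (r₀ / A) • (x - y) ∈ ball (0 : Sp n) r₀ := by
    rw [mem_ball_zero_iff, norm_smul, Real.norm_of_nonneg (by positivity)]
    calc r₀ / A * ‖x - y‖ ≤ r₀ / A * R := by gcongr
      _ < r₀ / A * A := by gcongr
      _ = r₀ := by field_simp
  have h := hΩ.star _ hz y hyΩ (A / (r₀ + A))
    ⟨by positivity, by rw [div_le_one hs]; linarith⟩
  have e : (1 - A / (r₀ + A)) • y + (A / (r₀ + A)) • (r₀ / A) • (x - y) = x₁ := by
    have e1 : (1 - A / (r₀ + A)) = r₀ / (r₀ + A) := by field_simp; ring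
    have e2 : A / (r₀ + A) * (r₀ / A) = r₀ / (r₀ + A) := by field_simp
    have e3 : r₀ / (r₀ + A) * ((r₀ + A) / r₀) = 1 := by field_simp
    rw [smul_smul, e1, e2, ← smul_add, add_sub_cancel, hx, smul_smul, e3, one_smul]
  rw [e] at h
  exact h hx₁

/-- X17: a smooth weight vanishing exactly on the closure. -/
theorem exists_weight (S : Set (Sp n)) (hS : IsClosed S) :
    ∃ χ : Sp n → ℝ, Weight χ ∧ (∀ x ∈ S, χ x = 0) ∧ ∀ x ∉ S, 0 < χ x := by
  rcases S.eq_empty_or_nonempty with rfl | hne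
  · exact ⟨fun _ => 1, ⟨continuous_const, fun _ => zero_le_one, fun _ => le_rfl⟩,
      fun x hx => absurd hx (notMem_empty x), fun _ _ => zero_lt_one⟩
  · refine ⟨fun x => min 1 (infDist x S), ⟨?_, ?_, ?_⟩, ?_, ?_⟩
    · exact continuous_const.min (continuous_infDist_pt S)
    · exact fun x => le_min zero_le_one infDist_nonneg
    · exact fun x => min_le_left _ _
    · intro x hx
      simp only [infDist_zero_of_mem hx]
      exact min_eq_right zero_le_one
    · intro x hx
      exact lt_min zero_lt_one ((hS.notMem_iff_infDist_pos hne).mp hx)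

end Pool.Agent.Lib.MP_9a9339_an
end

section

set_option autoImplicit false

open Set Filter Topology Metric InnerProductSpace Laplacian MeasureTheory
open scoped ContDiff

namespace Pool.Agent.Lib.MP_9a9339_an

open Pool.Agent.Lib.MP_2166fc_an (Sp)

variable {n : ℕ}

private lemma limit_mem {x z : Sp n} {t r : ℝ} (h0 : 0 ≤ t) (h1 : t ≤ r) (hz : ¬ 1 < ‖z‖) :
    x + t • z ∈ closedBall x r := by
  rw [mem_closedBall, dist_eq_norm, add_sub_cancel_left, norm_smul, Real.norm_eq_abs,
    abs_of_nonneg h0]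
  have hz' : ‖z‖ ≤ 1 := not_lt.1 hz
  nlinarith [norm_nonneg z]

/-- the inner dominated convergence -/
private lemma limit_inner {ψ : Sp n → ℝ} (hψ : Continuous ψ) (h0 : ∀ z, 0 ≤ ψ z)
    (hz : ∀ z, 1 < ‖z‖ → ψ z = 0) {w : ℕ → Sp n → ℝ} {w' : Sp n → ℝ} {x : Sp n} {r t C : ℝ}
    (ht0 : 0 ≤ t) (ht : t ≤ r) (hwm : ∀ k, Measurable (w k))
    (hwb : ∀ k, ∀ y ∈ closedBall x r, |w k y| ≤ C)
    (hw : ∀ y ∈ closedBall x r, Tendsto (fun k => w k y) atTop (𝓝 (w' y))) :
    Tendsto (fun k => ∫ z, ψ z * w k (x + t • z)) atTop (𝓝 (∫ z, ψ z * w' (x + t • z))) := by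
  refine tendsto_integral_of_dominated_convergence (fun z => C * ψ z) ?_ ?_ ?_ ?_
  · intro k
    have h1 : Measurable fun z : Sp n => w k (x + t • z) :=
      (hwm k).comp (measurable_const.add (measurable_id.const_smul t))
    exact (hψ.measurable.mul h1).aestronglyMeasurable
  · exact (mv_integrable hψ hz).const_mul C
  · intro k
    refine Eventually.of_forall fun z => ?_
    by_cases h : 1 < ‖z‖
    · simp [hz z h]
    · rw [Real.norm_eq_abs, abs_mul, abs_of_nonneg (h0 z), mul_comm C]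
      exact mul_le_mul_of_nonneg_left (hwb k _ (limit_mem ht0 ht h)) (h0 z)
  · refine Eventually.of_forall fun z => ?_
    by_cases h : 1 < ‖z‖
    · simp [hz z h]
    · exact (hw _ (limit_mem ht0 ht h)).const_mul _

/-- X6: the mean value identity passes to bounded pointwise limits. -/
theorem mvi_of_tendsto {w g : ℕ → Sp n → ℝ} {w' g' : Sp n → ℝ} {x : Sp n} {r C : ℝ}
    (hr : 0 < r) (hwm : ∀ k, Measurable (w k)) (hgm : ∀ k, Measurable (g k))
    (hwb : ∀ k, ∀ y ∈ closedBall x r, |w k y| ≤ C) (hgb : ∀ k, ∀ y ∈ closedBall x r, |g k y| ≤ C)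
    (hw : ∀ y ∈ closedBall x r, Tendsto (fun k => w k y) atTop (𝓝 (w' y)))
    (hg : ∀ y ∈ closedBall x r, Tendsto (fun k => g k y) atTop (𝓝 (g' y)))
    (h : ∀ k, MVI (w k) (g k) x r) : MVI w' g' x r := by
  have hC : 0 ≤ C := (abs_nonneg _).trans (hwb 0 x (mem_closedBall_self hr.le))
  have hPz : ∀ z : Sp n, 1 < ‖z‖ → mvPhi n z = 0 := fun z hz => mv_Phi_zero hz
  have h1 : Tendsto (fun k => avg (w k) x r) atTop (𝓝 (avg w' x r)) :=
    limit_inner mv_Psi_cont mv_Psi_nonneg (fun z hz => mv_Psi_zero hz) hr.le le_rfl hwm hwb hw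
  have h2 : Tendsto (fun k => src (g k) x r) atTop (𝓝 (src g' x r)) := by
    unfold src
    refine intervalIntegral.tendsto_integral_filter_of_dominated_convergence
      (fun _ => r * (C * ∫ z, mvPhi n z)) ?_ ?_ ?_ ?_
    · refine Eventually.of_forall fun k => ?_
      have hm : Measurable fun p : ℝ × Sp n => mvPhi n p.2 * g k (x + p.1 • p.2) :=
        (mv_Phi_cont.measurable.comp measurable_snd).mul
          ((hgm k).comp (measurable_const.add (measurable_fst.smul measurable_snd)))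
      have hm2 : StronglyMeasurable fun t : ℝ => ∫ z, mvPhi n z * g k (x + t • z) :=
        hm.stronglyMeasurable.integral_prod_right'
      exact (measurable_id.stronglyMeasurable.mul hm2).aestronglyMeasurable
    · refine Eventually.of_forall fun k => Eventually.of_forall fun t ht => ?_
      rw [uIoc_of_le hr.le] at ht
      have hI : |∫ z, mvPhi n z * g k (x + t • z)| ≤ C * ∫ z, mvPhi n z := by
        rw [← integral_const_mul, ← Real.norm_eq_abs]
        refine norm_integral_le_of_norm_le ((mv_integrable mv_Phi_cont hPz).const_mul C) ?_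
        refine Eventually.of_forall fun z => ?_
        by_cases h : 1 < ‖z‖
        · simp [hPz z h]
        · rw [Real.norm_eq_abs, abs_mul, abs_of_nonneg (mv_Phi_nonneg z), mul_comm C]
          exact mul_le_mul_of_nonneg_left (hgb k _ (limit_mem ht.1.le ht.2 h)) (mv_Phi_nonneg z)
      rw [Real.norm_eq_abs, abs_mul, abs_of_pos ht.1]
      exact mul_le_mul ht.2 hI (abs_nonneg _) hr.le
    · exact intervalIntegrable_const
    · refine Eventually.of_forall fun t ht => ?_
      rw [uIoc_of_le hr.le] at ht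
      exact (limit_inner mv_Phi_cont mv_Phi_nonneg hPz ht.1.le ht.2 hgm hgb hg).const_mul t
  have h3 : Tendsto (fun k => (∫ z, Psi n z) * w k x) atTop (𝓝 ((∫ z, Psi n z) * w' x)) :=
    (hw x (mem_closedBall_self hr.le)).const_mul _
  refine tendsto_nhds_unique h3 ?_
  have h4 := h1.add h2
  refine h4.congr fun k => (h k).symm

end Pool.Agent.Lib.MP_9a9339_an
end

section

set_option autoImplicit false

open Set Filter Topology Metric InnerProductSpace Laplacian MeasureTheory
open scoped ContDiff Convolution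

namespace Pool.Agent.Lib.MP_9a9339_an

open Pool.Agent.Lib.MP_2166fc_an (Sp)

variable {n : ℕ}

lemma regAvg_hasDerivAt (p : ℝ) :
    HasDerivAt (fun p : ℝ => (max p 0) ^ 2) (2 * max p 0) p := by
  refine hasDerivAt_of_hasDerivAt_of_ne' (x := 0) (g := fun p : ℝ => 2 * max p 0)
    ?_ ?_ ?_ p
  · intro y hy
    rcases lt_or_gt_of_ne hy with h | h
    · have h1 : (fun p : ℝ => (max p 0) ^ 2) =ᶠ[𝓝 y] fun _ => 0 := by
        filter_upwards [Iio_mem_nhds h] with q hq
        rw [max_eq_right (le_of_lt hq)]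
        norm_num
      have h2 : 2 * max y 0 = 0 := by
        rw [max_eq_right h.le]
        norm_num
      rw [h2]
      exact (hasDerivAt_const y (0 : ℝ)).congr_of_eventuallyEq h1
    · have h1 : (fun p : ℝ => (max p 0) ^ 2) =ᶠ[𝓝 y] fun q => q ^ 2 := by
        filter_upwards [Ioi_mem_nhds h] with q hq
        rw [max_eq_left (le_of_lt hq)]
      have h2 : 2 * max y 0 = 2 * y := by
        rw [max_eq_left h.le]
      rw [h2]
      have h3 : HasDerivAt (fun q : ℝ => q ^ 2) (2 * y) y := by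
        simpa using hasDerivAt_pow 2 y
      exact h3.congr_of_eventuallyEq h1
  · fun_prop
  · fun_prop

lemma regAvg_contDiff_sq : ContDiff ℝ 1 (fun p : ℝ => (max p 0) ^ 2) := by
  rw [contDiff_one_iff_deriv]
  refine ⟨fun p => (regAvg_hasDerivAt p).differentiableAt, ?_⟩
  have h : deriv (fun p : ℝ => (max p 0) ^ 2) = fun p => 2 * max p 0 :=
    funext fun p => (regAvg_hasDerivAt p).deriv
  rw [h]
  fun_prop

lemma regAvg_contDiff_Psi : ContDiff ℝ 1 (Psi n) := by
  have h : Psi n = (fun p : ℝ => (max p 0) ^ 2) ∘ fun z : Sp n => 1 - ‖z‖ ^ 2 := rfl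
  rw [h]
  exact regAvg_contDiff_sq.comp (contDiff_const.sub (contDiff_norm_sq ℝ))

/-- the scaled kernel -/
noncomputable def regAvgK (n : ℕ) (r : ℝ) (t : Sp n) : ℝ := Psi n ((-r)⁻¹ • t)

lemma regAvg_contDiff_K (r : ℝ) : ContDiff ℝ 1 (regAvgK n r) :=
  regAvg_contDiff_Psi.comp (contDiff_const_smul _)

lemma regAvg_supp_K {r : ℝ} (hr : 0 < r) : HasCompactSupport (regAvgK n r) := by
  refine HasCompactSupport.intro (isCompact_closedBall (0 : Sp n) r) fun z hz => ?_
  rw [mem_closedBall_zero_iff, not_le] at hz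
  apply mv_Psi_zero
  rw [norm_smul, norm_inv, norm_neg, Real.norm_of_nonneg hr.le, ← div_eq_inv_mul]
  exact (one_lt_div hr).2 hz

lemma regAvg_eq (w : Sp n → ℝ) {r : ℝ} (hr : 0 < r) (x : Sp n) :
    avg w x r = |((-r) ^ n)⁻¹| • (regAvgK n r ⋆[ContinuousLinearMap.mul ℝ ℝ, volume] w) x := by
  have h := Measure.integral_comp_smul (volume : Measure (Sp n))
    (fun t => regAvgK n r t * w (x - t)) (-r)
  rw [finrank_euclideanSpace_fin] at h
  have h2 : (regAvgK n r ⋆[ContinuousLinearMap.mul ℝ ℝ, volume] w) x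
      = ∫ t, regAvgK n r t * w (x - t) := rfl
  rw [h2, ← h]
  unfold avg regAvgK
  refine integral_congr_ae (Eventually.of_forall fun z => ?_)
  have h3 : (-r)⁻¹ • ((-r) • z) = z := by
    rw [smul_smul, inv_mul_cancel₀ (by linarith [neg_lt_zero.2 hr] : (-r) ≠ 0), one_smul]
  have h4 : x - (-r) • z = x + r • z := by
    rw [neg_smul, sub_neg_eq_add]
  simp only [h3, h4]

/-- X7: weighted averages of bounded measurable functions are `C^1`. -/
theorem contDiff_one_avg {w : Sp n → ℝ} (hw : Measurable w) {C : ℝ} (hb : ∀ y, |w y| ≤ C)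
    {r : ℝ} (hr : 0 < r) : ContDiff ℝ 1 (fun x => avg w x r) := by
  have h1 : (fun x => avg w x r) = fun x =>
      |((-r) ^ n)⁻¹| • (regAvgK n r ⋆[ContinuousLinearMap.mul ℝ ℝ, volume] w) x :=
    funext fun x => regAvg_eq w hr x
  rw [h1]
  have hloc : LocallyIntegrable w (volume : Measure (Sp n)) := by
    have h2 : LocallyIntegrable (fun _ : Sp n => C) (volume : Measure (Sp n)) :=
      locallyIntegrable_const C
    refine h2.mono hw.aestronglyMeasurable (Eventually.of_forall fun y => ?_)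
    rw [Real.norm_eq_abs, Real.norm_eq_abs]
    exact (hb y).trans (le_abs_self C)
  have h3 : ContDiff ℝ ((1 : ℕ∞) : ℕ∞ω)
      (regAvgK n r ⋆[ContinuousLinearMap.mul ℝ ℝ, volume] w) :=
    (regAvg_supp_K hr).contDiff_convolution_left _
      (by exact_mod_cast regAvg_contDiff_K r) hloc
  have h4 : ContDiff ℝ 1 (regAvgK n r ⋆[ContinuousLinearMap.mul ℝ ℝ, volume] w) := by
    exact_mod_cast h3
  have h5 : ContDiff ℝ 1 (fun _ : Sp n => |((-r) ^ n)⁻¹|) := contDiff_const
  exact h5.smul h4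

/-- X7: weighted averages of `C^1` functions are `C^2`. -/
theorem contDiff_two_avg {w : Sp n → ℝ} (hw : ContDiff ℝ 1 w) (hc : HasCompactSupport w)
    {r : ℝ} (hr : 0 < r) : ContDiff ℝ 2 (fun x => avg w x r) := by
  have h1 : (fun x => avg w x r) = fun x =>
      |((-r) ^ n)⁻¹| • (regAvgK n r ⋆[ContinuousLinearMap.mul ℝ ℝ, volume] w) x :=
    funext fun x => regAvg_eq w hr x
  rw [h1]
  have hK := regAvg_contDiff_K (n := n) r
  have hKl : LocallyIntegrable (regAvgK n r) (volume : Measure (Sp n)) :=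
    hK.continuous.locallyIntegrable
  have hdl : LocallyIntegrable (fderiv ℝ w) (volume : Measure (Sp n)) :=
    (hw.continuous_fderiv (by norm_num)).locallyIntegrable
  have h2 : ContDiff ℝ ((1 : ℕ) + 1)
      (regAvgK n r ⋆[ContinuousLinearMap.mul ℝ ℝ, volume] w) := by
    rw [contDiff_succ_iff_hasFDerivAt]
    refine ⟨regAvgK n r ⋆[(ContinuousLinearMap.mul ℝ ℝ).precompR (Sp n), volume] fderiv ℝ w,
      ?_, fun x => hc.hasFDerivAt_convolution_right _ hKl hw x⟩
    have h4 : ContDiff ℝ ((1 : ℕ∞) : ℕ∞ω)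
        (regAvgK n r ⋆[(ContinuousLinearMap.mul ℝ ℝ).precompR (Sp n), volume] fderiv ℝ w) :=
      (regAvg_supp_K hr).contDiff_convolution_left _ (by exact_mod_cast hK) hdl
    exact_mod_cast h4
  have h3 : ((1 : ℕ) + 1 : ℕ∞ω) = 2 := by norm_num
  rw [h3] at h2
  have h5 : ContDiff ℝ 2 (fun _ : Sp n => |((-r) ^ n)⁻¹|) := contDiff_const
  exact h5.smul h2

end Pool.Agent.Lib.MP_9a9339_an
end

section

set_option autoImplicit false

open Set Filter Topology Metric InnerProductSpace Laplacian MeasureTheory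
open scoped ContDiff

namespace Pool.Agent.Lib.MP_9a9339_an

open Pool.Agent.Lib.MP_2166fc_an (Sp)

variable {n : ℕ}

lemma regSrc_fderiv : fderiv ℝ (mvPhi n) = fun z => -(Psi n z • (innerSL ℝ z : Sp n →L[ℝ] ℝ)) := by
  funext z
  ext v
  rw [(mv_fderiv_Phi z).2 v]
  simp

lemma regSrc_contDiff : ContDiff ℝ 1 (mvPhi n) := by
  rw [contDiff_one_iff_fderiv]
  refine ⟨fun z => (mv_fderiv_Phi z).1, ?_⟩
  rw [regSrc_fderiv]
  have h1 := mv_Psi_cont (n := n)
  have h2 : Continuous (fun z : Sp n => (innerSL ℝ z : Sp n →L[ℝ] ℝ)) := (innerSL ℝ).continuous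
  exact (h1.smul h2).neg

lemma regSrc_compact : HasCompactSupport (mvPhi n) :=
  HasCompactSupport.intro (isCompact_closedBall (0 : Sp n) 1) fun z hz => mv_Phi_zero (by
    rwa [mem_closedBall_zero_iff, not_le] at hz)

lemma regSrc_Phi_neg (z : Sp n) : mvPhi n (-z) = mvPhi n z := by simp [mvPhi]

lemma regSrc_Psi_neg (z : Sp n) : Psi n (-z) = Psi n z := by simp [Psi]

/-- The derivative kernel. -/
noncomputable def regSrc_J (g : Sp n → ℝ) (t : ℝ) (x : Sp n) : Sp n →L[ℝ] ℝ :=
  ∫ z, (Psi n z * g (x + t • z)) • (innerSL ℝ z : Sp n →L[ℝ] ℝ)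

lemma regSrc_locInt {g : Sp n → ℝ} (hg : Measurable g) {C : ℝ} (hb : ∀ y, |g y| ≤ C) :
    LocallyIntegrable g := by
  refine (locallyIntegrable_const (μ := (volume : Measure (Sp n))) C).mono
    hg.aestronglyMeasurable (Eventually.of_forall fun y => ?_)
  rw [Real.norm_eq_abs, Real.norm_eq_abs]
  exact (hb y).trans (le_abs_self C)

lemma regSrc_core {g : Sp n → ℝ} (hg : Measurable g) {C : ℝ} (hb : ∀ y, |g y| ≤ C) :
    (∀ u, HasFDerivAt (fun u => ∫ z, mvPhi n z * g (u + z))
      (∫ z, (Psi n z * g (u + z)) • (innerSL ℝ z : Sp n →L[ℝ] ℝ)) u) ∧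
    Continuous (fun u => ∫ z, (Psi n z * g (u + z)) • (innerSL ℝ z : Sp n →L[ℝ] ℝ)) := by
  have hl := regSrc_locInt hg hb
  have h1 : (fun u => ∫ z, mvPhi n z * g (u + z)) =
      convolution (mvPhi n) g (ContinuousLinearMap.mul ℝ ℝ) volume := by
    funext u
    rw [convolution_mul, ← integral_neg_eq_self]
    refine integral_congr_ae (Eventually.of_forall fun z => ?_)
    simp only [regSrc_Phi_neg, sub_eq_add_neg]
  have h2 : (fun u => ∫ z, (Psi n z * g (u + z)) • (innerSL ℝ z : Sp n →L[ℝ] ℝ)) =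
      convolution (fderiv ℝ (mvPhi n)) g ((ContinuousLinearMap.mul ℝ ℝ).precompL (Sp n)) volume := by
    funext u
    rw [convolution_def, ← integral_neg_eq_self]
    refine integral_congr_ae (Eventually.of_forall fun z => ?_)
    simp only [regSrc_fderiv, regSrc_Psi_neg, sub_eq_add_neg]
    ext v
    simp only [ContinuousLinearMap.precompL_apply, ContinuousLinearMap.mul_apply',
      FunLike.coe_smul, Pi.smul_apply, smul_eq_mul, FunLike.coe_neg, Pi.neg_apply,
      innerSL_apply_apply, inner_neg_left]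
    ring
  constructor
  · intro u
    rw [h1]
    have := regSrc_compact.hasFDerivAt_convolution_left (ContinuousLinearMap.mul ℝ ℝ)
      (regSrc_contDiff (n := n)) hl u
    rw [← h2] at this
    exact this
  · rw [h2]
    exact (regSrc_compact.fderiv (𝕜 := ℝ)).continuous_convolution_left _
      (regSrc_contDiff.continuous_fderiv one_ne_zero) hl

lemma regSrc_J_eq (g : Sp n → ℝ) {t : ℝ} (ht : t ≠ 0) (x : Sp n) :
    regSrc_J g t x = ∫ z, (Psi n z * (fun y => g (t • y)) (t⁻¹ • x + z)) •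
      (innerSL ℝ z : Sp n →L[ℝ] ℝ) := by
  unfold regSrc_J
  refine integral_congr_ae (Eventually.of_forall fun z => ?_)
  simp only [smul_add, smul_smul, mul_inv_cancel₀ ht, one_smul]

lemma regSrc_hasFDerivAt {g : Sp n → ℝ} (hg : Measurable g) {C : ℝ} (hb : ∀ y, |g y| ≤ C)
    {t : ℝ} (ht : 0 < t) (x : Sp n) :
    HasFDerivAt (fun x => t * ∫ z, mvPhi n z * g (x + t • z)) (regSrc_J g t x) x := by
  have hG : Measurable (fun y : Sp n => g (t • y)) := hg.comp (measurable_const_smul t)
  have hc := (regSrc_core hG (C := C) (fun y => hb _)).1 (t⁻¹ • x)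
  have hs : HasFDerivAt (fun x : Sp n => t⁻¹ • x) (t⁻¹ • ContinuousLinearMap.id ℝ (Sp n)) x :=
    (hasFDerivAt_id x).const_smul t⁻¹
  have h1 := (hc.comp x hs).const_mul t
  have e1 : (fun x => t * ∫ z, mvPhi n z * g (x + t • z)) =
      fun x => t * ((fun u => ∫ z, mvPhi n z * g (t • (u + z))) ∘ fun x => t⁻¹ • x) x := by
    funext y
    simp only [Function.comp_apply, smul_add, smul_smul, mul_inv_cancel₀ ht.ne', one_smul]
  rw [e1, regSrc_J_eq g ht.ne']
  rw [ContinuousLinearMap.comp_smul, ContinuousLinearMap.comp_id, smul_smul,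
    mul_inv_cancel₀ ht.ne', one_smul] at h1
  exact h1

lemma regSrc_J_cont {g : Sp n → ℝ} (hg : Measurable g) {C : ℝ} (hb : ∀ y, |g y| ≤ C)
    {t : ℝ} (ht : 0 < t) : Continuous (regSrc_J g t) := by
  have hG : Measurable (fun y : Sp n => g (t • y)) := hg.comp (measurable_const_smul t)
  have hc := (regSrc_core hG (C := C) (fun y => hb _)).2
  have e1 : regSrc_J g t = (fun u => ∫ z, (Psi n z * (fun y => g (t • y)) (u + z)) •
      (innerSL ℝ z : Sp n →L[ℝ] ℝ)) ∘ fun x => t⁻¹ • x := by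
    funext x
    exact regSrc_J_eq g ht.ne' x
  rw [e1]
  exact hc.comp (continuous_const_smul _)

lemma regSrc_Psi_int : Integrable (Psi n) :=
  mv_integrable mv_Psi_cont fun _ hz => mv_Psi_zero hz

lemma regSrc_J_bound {g : Sp n → ℝ} {C : ℝ} (hb : ∀ y, |g y| ≤ C) (t : ℝ) (x : Sp n) :
    ‖regSrc_J g t x‖ ≤ C * ∫ z, Psi n z := by
  unfold regSrc_J
  rw [← integral_const_mul]
  have hC : 0 ≤ C := (abs_nonneg _).trans (hb 0)
  refine norm_integral_le_of_norm_le (regSrc_Psi_int.const_mul C)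
    (Eventually.of_forall fun z => ?_)
  rw [norm_smul, innerSL_apply_norm, Real.norm_eq_abs, abs_mul, abs_of_nonneg (mv_Psi_nonneg z)]
  by_cases hz : 1 < ‖z‖
  · rw [mv_Psi_zero hz]; simp
  · push Not at hz
    have h1 : Psi n z * |g (x + t • z)| ≤ Psi n z * C :=
      mul_le_mul_of_nonneg_left (hb _) (mv_Psi_nonneg z)
    have h2 : 0 ≤ Psi n z * |g (x + t • z)| := mul_nonneg (mv_Psi_nonneg z) (abs_nonneg _)
    calc Psi n z * |g (x + t • z)| * ‖z‖ ≤ Psi n z * |g (x + t • z)| * 1 :=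
          mul_le_mul_of_nonneg_left hz h2
      _ ≤ C * Psi n z := by linarith

lemma regSrc_F_bound {g : Sp n → ℝ} {C : ℝ} (hb : ∀ y, |g y| ≤ C) (t : ℝ) (x : Sp n) :
    ‖∫ z, mvPhi n z * g (x + t • z)‖ ≤ C * ∫ z, Psi n z := by
  rw [← integral_const_mul]
  have hC : 0 ≤ C := (abs_nonneg _).trans (hb 0)
  refine norm_integral_le_of_norm_le (regSrc_Psi_int.const_mul C)
    (Eventually.of_forall fun z => ?_)
  rw [Real.norm_eq_abs, abs_mul, abs_of_nonneg (mv_Phi_nonneg z), mul_comm C]
  exact mul_le_mul (mv_Phi_le z) (hb _) (abs_nonneg _) (mv_Psi_nonneg z)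

lemma regSrc_F_meas {g : Sp n → ℝ} (hg : Measurable g) (x : Sp n) :
    StronglyMeasurable (fun t : ℝ => t * ∫ z, mvPhi n z * g (x + t • z)) := by
  have h1 : StronglyMeasurable (fun p : ℝ × Sp n => mvPhi n p.2 * g (x + p.1 • p.2)) := by
    apply Measurable.stronglyMeasurable
    have h2 : Measurable (fun p : ℝ × Sp n => x + p.1 • p.2) := by fun_prop
    exact (mv_Phi_cont.measurable.comp measurable_snd).mul (hg.comp h2)
  exact stronglyMeasurable_id.mul h1.integral_prod_right'

lemma regSrc_J_meas {g : Sp n → ℝ} (hg : Measurable g) (x : Sp n) :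
    StronglyMeasurable (fun t : ℝ => regSrc_J g t x) := by
  have h1 : StronglyMeasurable (fun p : ℝ × Sp n => (Psi n p.2 * g (x + p.1 • p.2)) •
      (innerSL ℝ p.2 : Sp n →L[ℝ] ℝ)) := by
    have h2 : Measurable (fun p : ℝ × Sp n => x + p.1 • p.2) := by fun_prop
    have h3 : StronglyMeasurable (fun p : ℝ × Sp n => Psi n p.2 * g (x + p.1 • p.2)) :=
      ((mv_Psi_cont.measurable.comp measurable_snd).mul (hg.comp h2)).stronglyMeasurable
    have h4 : Continuous (fun p : ℝ × Sp n => (innerSL ℝ p.2 : Sp n →L[ℝ] ℝ)) :=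
      (innerSL ℝ).continuous.comp continuous_snd
    exact h3.smul h4.stronglyMeasurable
  exact h1.integral_prod_right'

/-- X8: the source term of a bounded measurable function is `C^1`. -/
theorem contDiff_one_src {g : Sp n → ℝ} (hg : Measurable g) {C : ℝ} (hb : ∀ y, |g y| ≤ C)
    {r : ℝ} (hr : 0 < r) : ContDiff ℝ 1 (fun x => src g x r) := by
  have hC : 0 ≤ C := (abs_nonneg _).trans (hb 0)
  have hder : ∀ x, HasFDerivAt (fun x => src g x r) (∫ t in (0:ℝ)..r, regSrc_J g t x) x := by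
    intro x
    unfold src
    refine intervalIntegral.hasFDerivAt_integral_of_dominated_of_fderiv_le (𝕜 := ℝ)
      (F := fun (x : Sp n) (t : ℝ) => t * ∫ z, mvPhi n z * g (x + t • z))
      (F' := fun x t => regSrc_J g t x)
      (bound := fun _ => C * ∫ z, Psi n z) (s := univ) univ_mem ?_ ?_ ?_ ?_ ?_ ?_
    · exact Eventually.of_forall fun y => (regSrc_F_meas hg y).aestronglyMeasurable
    · rw [intervalIntegrable_iff]
      refine Integrable.mono' (g := fun _ => r * (C * ∫ z, Psi n z)) ?_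
        (regSrc_F_meas hg x).aestronglyMeasurable ?_
      · exact integrableOn_const (by simp)
      · rw [uIoc_of_le hr.le]
        refine (ae_restrict_iff' measurableSet_Ioc).2 (Eventually.of_forall fun t ht => ?_)
        rw [norm_mul, Real.norm_eq_abs, abs_of_pos ht.1]
        exact mul_le_mul ht.2 (regSrc_F_bound hb t x) (norm_nonneg _) hr.le
    · exact (regSrc_J_meas hg x).aestronglyMeasurable
    · exact Eventually.of_forall fun t _ y _ => regSrc_J_bound hb t y
    · exact intervalIntegrable_const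
    · refine Eventually.of_forall fun t ht y _ => ?_
      rw [uIoc_of_le hr.le] at ht
      exact regSrc_hasFDerivAt hg hb ht.1 y
  rw [contDiff_one_iff_fderiv]
  refine ⟨fun x => (hder x).differentiableAt, ?_⟩
  have e1 : fderiv ℝ (fun x => src g x r) = fun x => ∫ t in (0:ℝ)..r, regSrc_J g t x := by
    funext x
    exact (hder x).fderiv
  rw [e1]
  refine intervalIntegral.continuous_of_dominated_interval (bound := fun _ => C * ∫ z, Psi n z)
    (fun x => (regSrc_J_meas hg x).aestronglyMeasurable)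
    (fun x => Eventually.of_forall fun t _ => regSrc_J_bound hb t x) intervalIntegrable_const ?_
  refine Eventually.of_forall fun t ht => ?_
  rw [uIoc_of_le hr.le] at ht
  exact regSrc_J_cont hg hb ht.1

end Pool.Agent.Lib.MP_9a9339_an
end

section

set_option autoImplicit false

open Set Filter Topology Metric InnerProductSpace Laplacian MeasureTheory
open scoped ContDiff

namespace Pool.Agent.Lib.MP_9a9339_an

open Pool.Agent.Lib.MP_2166fc_an (Sp)

variable {n : ℕ}

/-- joint continuity of the inner integral -/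
lemma regSrc2_cont {E : Type*} [NormedAddCommGroup E] [NormedSpace ℝ E] {G : Sp n → E}
    (hG : Continuous G) {C : ℝ} (hC : ∀ y, ‖G y‖ ≤ C) (x : Sp n) :
    Continuous fun t : ℝ => ∫ z, mvPhi n z • G (x + t • z) := by
  have hP := mv_Phi_cont (n := n)
  refine continuous_of_dominated (bound := fun z => mvPhi n z * C) ?_ ?_ ?_ ?_
  · intro t
    exact Continuous.aestronglyMeasurable (by fun_prop)
  · intro t
    refine Eventually.of_forall fun z => ?_
    rw [norm_smul, Real.norm_of_nonneg (mv_Phi_nonneg z)]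
    exact mul_le_mul_of_nonneg_left (hC _) (mv_Phi_nonneg z)
  · refine mv_integrable (by fun_prop) fun z hz => ?_
    rw [mv_Phi_zero hz, zero_mul]
  · refine Eventually.of_forall fun z => ?_
    fun_prop

/-- derivative of the inner integral -/
lemma regSrc2_inner {g : Sp n → ℝ} (hg : ContDiff ℝ 1 g) {C : ℝ}
    (hC : ∀ y, ‖fderiv ℝ g y‖ ≤ C) (t : ℝ) (x : Sp n) :
    HasFDerivAt (fun x => ∫ z, mvPhi n z * g (x + t • z))
      (∫ z, mvPhi n z • fderiv ℝ g (x + t • z)) x := by
  have hP := mv_Phi_cont (n := n)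
  have hg0 : Continuous g := hg.continuous
  have hg1 : Continuous (fderiv ℝ g) := hg.continuous_fderiv (by norm_num)
  refine hasFDerivAt_integral_of_dominated_of_fderiv_le (s := univ)
    (F := fun (x : Sp n) z => mvPhi n z * g (x + t • z))
    (F' := fun (x : Sp n) z => mvPhi n z • fderiv ℝ g (x + t • z))
    (bound := fun z => mvPhi n z * C) univ_mem ?_ ?_ ?_ ?_ ?_ ?_
  · exact Eventually.of_forall fun s => Continuous.aestronglyMeasurable (by fun_prop)
  · refine mv_integrable (by fun_prop) fun z hz => ?_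
    rw [mv_Phi_zero hz, zero_mul]
  · exact Continuous.aestronglyMeasurable (by fun_prop)
  · refine Eventually.of_forall fun z y _ => ?_
    rw [norm_smul, Real.norm_of_nonneg (mv_Phi_nonneg z)]
    exact mul_le_mul_of_nonneg_left (hC _) (mv_Phi_nonneg z)
  · refine mv_integrable (by fun_prop) fun z hz => ?_
    rw [mv_Phi_zero hz, zero_mul]
  · refine Eventually.of_forall fun z y _ => ?_
    have h1 : HasFDerivAt (fun y : Sp n => y + t • z) (ContinuousLinearMap.id ℝ (Sp n)) y :=
      (hasFDerivAt_id y).add_const _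
    have h2 := ((hg.differentiable (by norm_num)) (y + t • z)).hasFDerivAt.comp y h1
    rw [ContinuousLinearMap.comp_id] at h2
    exact h2.const_mul (mvPhi n z)

/-- derivative of the source term -/
lemma regSrc2_hasFDerivAt {g : Sp n → ℝ} (hg : ContDiff ℝ 1 g) {C₀ C : ℝ}
    (hC₀ : ∀ y, ‖g y‖ ≤ C₀) (hC : ∀ y, ‖fderiv ℝ g y‖ ≤ C) (r : ℝ) (x : Sp n) :
    HasFDerivAt (fun x => src g x r)
      (∫ t in (0:ℝ)..r, t • ∫ z, mvPhi n z • fderiv ℝ g (x + t • z)) x := by
  have hg0 : Continuous g := hg.continuous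
  have hg1 : Continuous (fderiv ℝ g) := hg.continuous_fderiv (by norm_num)
  have hcont : ∀ y : Sp n, Continuous fun t : ℝ => t * ∫ z, mvPhi n z * g (y + t • z) := fun y =>
    continuous_id.mul (regSrc2_cont hg0 hC₀ y)
  have hcont' : ∀ y : Sp n, Continuous fun t : ℝ =>
      t • ∫ z, mvPhi n z • fderiv ℝ g (y + t • z) := fun y =>
    continuous_id.smul (regSrc2_cont hg1 hC y)
  have hI : Integrable fun z => mvPhi n z * C := by
    have hP := mv_Phi_cont (n := n)
    refine mv_integrable (by fun_prop) fun z hz => ?_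
    rw [mv_Phi_zero hz, zero_mul]
  refine intervalIntegral.hasFDerivAt_integral_of_dominated_of_fderiv_le (s := univ)
    (F := fun (x : Sp n) (t : ℝ) => t * ∫ z, mvPhi n z * g (x + t • z))
    (F' := fun (x : Sp n) (t : ℝ) => t • ∫ z, mvPhi n z • fderiv ℝ g (x + t • z))
    (bound := fun t => |t| * ∫ z, mvPhi n z * C) univ_mem ?_ ?_ ?_ ?_ ?_ ?_
  · exact Eventually.of_forall fun y => (hcont y).aestronglyMeasurable
  · exact (hcont x).intervalIntegrable _ _
  · exact (hcont' x).aestronglyMeasurable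
  · refine Eventually.of_forall fun t _ y _ => ?_
    rw [norm_smul, Real.norm_eq_abs]
    refine mul_le_mul_of_nonneg_left ?_ (abs_nonneg t)
    refine norm_integral_le_of_norm_le hI (Eventually.of_forall fun z => ?_)
    rw [norm_smul, Real.norm_of_nonneg (mv_Phi_nonneg z)]
    exact mul_le_mul_of_nonneg_left (hC _) (mv_Phi_nonneg z)
  · exact (by fun_prop : Continuous fun t : ℝ => |t| * ∫ z, mvPhi n z * C).intervalIntegrable _ _
  · refine Eventually.of_forall fun t _ y _ => ?_
    exact (regSrc2_inner hg hC t y).const_mul t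

/-- X9: the source term of a `C^1` function is `C^2`. -/
theorem contDiff_two_src {g : Sp n → ℝ} (hg : ContDiff ℝ 1 g) (hc : HasCompactSupport g)
    {r : ℝ} (hr : 0 < r) : ContDiff ℝ 2 (fun x => src g x r) := by
  have hg0 : Continuous g := hg.continuous
  have hg1 : Continuous (fderiv ℝ g) := hg.continuous_fderiv (by norm_num)
  obtain ⟨C₀, hC₀⟩ := hc.exists_bound_of_continuous hg0
  obtain ⟨C, hC⟩ := (hc.fderiv (𝕜 := ℝ)).exists_bound_of_continuous hg1
  have hC0 : 0 ≤ C := (norm_nonneg _).trans (hC 0)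
  have hfd : ∀ x, HasFDerivAt (fun x => src g x r)
      (∫ t in (0:ℝ)..r, t • ∫ z, mvPhi n z • fderiv ℝ g (x + t • z)) x :=
    fun x => regSrc2_hasFDerivAt hg hC₀ hC r x
  rw [show (2 : WithTop ℕ∞) = 1 + 1 from rfl, contDiff_succ_iff_fderiv]
  refine ⟨fun x => (hfd x).differentiableAt, fun h => absurd h (by simp), ?_⟩
  rw [contDiff_clm_apply_iff]
  intro v
  have hv : (fun x => fderiv ℝ (fun x => src g x r) x v) =
      fun x => src (fun y => fderiv ℝ g y v) x r := by
    funext x
    rw [(hfd x).fderiv, ContinuousLinearMap.intervalIntegral_apply]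
    · unfold src
      refine intervalIntegral.integral_congr fun t _ => ?_
      change (t • ∫ z, mvPhi n z • fderiv ℝ g (x + t • z)) v = _
      rw [ContinuousLinearMap.smul_apply, smul_eq_mul, ContinuousLinearMap.integral_apply]
      · rfl
      · have hP := mv_Phi_cont (n := n)
        refine (by fun_prop : Continuous fun z => mvPhi n z • fderiv ℝ g (x + t • z)).integrable_of_hasCompactSupport ?_
        refine HasCompactSupport.intro (isCompact_closedBall (0 : Sp n) 1) fun z hz => ?_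
        rw [mem_closedBall_zero_iff, not_le] at hz
        rw [mv_Phi_zero hz, zero_smul]
    · exact (continuous_id.smul (regSrc2_cont hg1 hC x)).intervalIntegrable _ _
  rw [hv]
  have hcv : Continuous fun y => fderiv ℝ g y v := hg1.clm_apply continuous_const
  refine contDiff_one_src hcv.measurable (C := C * ‖v‖) (fun y => ?_) hr
  exact (ContinuousLinearMap.le_opNorm _ _).trans (mul_le_mul_of_nonneg_right (hC y) (norm_nonneg v))

end Pool.Agent.Lib.MP_9a9339_an
end

section

set_option autoImplicit false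

open Set Filter Topology Metric InnerProductSpace Laplacian MeasureTheory
open scoped ContDiff

namespace Pool.Agent.Lib.MP_9a9339_an

open Pool.Agent.Lib.MP_2166fc_an (Sp)

variable {n : ℕ}

/-- The average only sees the values on the closed ball. -/
lemma regularity_avg_congr {u v : Sp n → ℝ} {x : Sp n} {r : ℝ} (hr : 0 ≤ r)
    (h : ∀ y ∈ closedBall x r, u y = v y) : avg u x r = avg v x r := by
  unfold avg
  congr 1
  ext z
  by_cases hz : 1 < ‖z‖
  · rw [mv_Psi_zero hz, zero_mul, zero_mul]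
  · rw [h]
    rw [mem_closedBall, dist_eq_norm, add_sub_cancel_left, norm_smul, Real.norm_of_nonneg hr]
    rw [not_lt] at hz
    nlinarith

/-- The source term only sees the values on the closed ball. -/
lemma regularity_src_congr {u v : Sp n → ℝ} {x : Sp n} {r : ℝ} (hr : 0 ≤ r)
    (h : ∀ y ∈ closedBall x r, u y = v y) : src u x r = src v x r := by
  unfold src
  apply intervalIntegral.integral_congr
  intro t ht
  rw [uIcc_of_le hr] at ht
  simp only
  congr 2
  ext z
  by_cases hz : 1 < ‖z‖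
  · rw [mv_Phi_zero hz, zero_mul, zero_mul]
  · rw [h]
    rw [mem_closedBall, dist_eq_norm, add_sub_cancel_left, norm_smul, Real.norm_of_nonneg ht.1]
    rw [not_lt] at hz
    have := mul_le_of_le_one_right ht.1 hz
    linarith [ht.2]

/-- The mean value identity in solved form, with modified data. -/
lemma regularity_eq {u g u₁ g₁ : Sp n → ℝ} {x : Sp n} {r : ℝ} (hr : 0 ≤ r)
    (h : MVI u g x r) (hu : ∀ y ∈ closedBall x r, u y = u₁ y)
    (hg : ∀ y ∈ closedBall x r, g y = g₁ y) :
    u x = (avg u₁ x r + src g₁ x r) / ∫ z, Psi n z := by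
  unfold MVI at h
  rw [regularity_avg_congr hr hu, regularity_src_congr hr hg] at h
  rw [eq_div_iff (mod_Psi_pos n).ne', mul_comm]
  exact h

/-- X10: interior regularity. -/
theorem regularity {Ω : Set (Sp n)} (hΩ : IsOpen Ω) {f : ℝ → ℝ} (hf : ContDiff ℝ 1 f)
    {u : Sp n → ℝ} (hm : Measurable u) {C : ℝ} (hb : ∀ x, |u x| ≤ C)
    (hmvi : ∀ x ∈ Ω, ∀ r, 0 < r → closedBall x r ⊆ Ω → MVI u (fun y => f (u y)) x r) :
    ContDiffOn ℝ 2 u Ω := by
  have hC : 0 ≤ C := (abs_nonneg (u 0)).trans (hb 0)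
  obtain ⟨C', hC'⟩ : ∃ C', ∀ s ∈ Icc (-C) C, |f s| ≤ C' := by
    obtain ⟨C', h⟩ := (isCompact_Icc (a := -C) (b := C)).exists_bound_of_continuousOn
      hf.continuous.continuousOn
    exact ⟨C', fun s hs => by simpa using h s hs⟩
  have hC'0 : 0 ≤ C' := (abs_nonneg _).trans (hC' 0 ⟨by linarith, hC⟩)
  have hfb : ∀ x, |f (u x)| ≤ C' := fun x => hC' _ (abs_le.1 (hb x))
  have hfm : Measurable fun x => f (u x) := hf.continuous.measurable.comp hm
  -- a good radius
  have hrad : ∀ x₀ ∈ Ω, ∃ ρ > 0, closedBall x₀ (3 * ρ) ⊆ Ω := by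
    intro x₀ hx₀
    obtain ⟨ε, hε, h⟩ := Metric.nhds_basis_closedBall.mem_iff.1 (hΩ.mem_nhds hx₀)
    refine ⟨ε / 3, by positivity, ?_⟩
    rw [mul_div_cancel₀ _ (by norm_num : (3:ℝ) ≠ 0)]
    exact h
  have hsub : ∀ (x₀ x : Sp n) (ρ : ℝ), 0 < ρ → x ∈ ball x₀ ρ →
      closedBall x (ρ / 2) ⊆ ball x₀ (2 * ρ) := by
    intro x₀ x ρ hρ hx y hy
    rw [mem_ball] at hx ⊢
    rw [mem_closedBall] at hy
    calc dist y x₀ ≤ dist y x + dist x x₀ := dist_triangle _ _ _
      _ < 2 * ρ := by linarith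
  -- Step 1
  have h1 : ∀ x₀ ∈ Ω, ContDiffAt ℝ 1 u x₀ := by
    intro x₀ hx₀
    obtain ⟨ρ, hρ, hρΩ⟩ := hrad x₀ hx₀
    set B := ball x₀ (2 * ρ) with hB
    have hBΩ : B ⊆ Ω := (ball_subset_closedBall.trans
      (closedBall_subset_closedBall (by linarith))).trans hρΩ
    have hBm : MeasurableSet B := measurableSet_ball
    have hm1 : Measurable (B.indicator u) := hm.indicator hBm
    have hm2 : Measurable (B.indicator fun y => f (u y)) := hfm.indicator hBm
    have hb1 : ∀ y, |B.indicator u y| ≤ C := by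
      intro y
      by_cases hy : y ∈ B
      · rw [indicator_of_mem hy]; exact hb y
      · rw [indicator_of_notMem hy, abs_zero]; exact hC
    have hb2 : ∀ y, |B.indicator (fun y => f (u y)) y| ≤ C' := by
      intro y
      by_cases hy : y ∈ B
      · rw [indicator_of_mem hy]; exact hfb y
      · rw [indicator_of_notMem hy, abs_zero]; exact hC'0
    have hcd : ContDiff ℝ 1 fun x => (avg (B.indicator u) x (ρ / 2)
        + src (B.indicator fun y => f (u y)) x (ρ / 2)) / ∫ z, Psi n z :=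
      ((contDiff_one_avg hm1 hb1 (half_pos hρ)).add
        (contDiff_one_src hm2 hb2 (half_pos hρ))).div_const _
    refine hcd.contDiffAt.congr_of_eventuallyEq ?_
    filter_upwards [ball_mem_nhds x₀ hρ] with x hx
    have hxB := hsub x₀ x ρ hρ hx
    refine regularity_eq (half_pos hρ).le
      (hmvi x (hBΩ (hxB (mem_closedBall_self (half_pos hρ).le))) _ (half_pos hρ)
        (hxB.trans hBΩ)) ?_ ?_
    · intro y hy
      rw [indicator_of_mem (hxB hy)]
    · intro y hy
      rw [indicator_of_mem (hxB hy)]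
  -- Step 2
  intro x₀ hx₀
  apply ContDiffAt.contDiffWithinAt
  obtain ⟨ρ, hρ, hρΩ⟩ := hrad x₀ hx₀
  let χ : ContDiffBump x₀ := ⟨2 * ρ, 3 * ρ, by positivity, by linarith⟩
  have hmulc : ∀ w : Sp n → ℝ, (∀ y ∈ Ω, ContDiffAt ℝ 1 w y) →
      ContDiff ℝ 1 fun y => χ y * w y := by
    intro w hw
    rw [contDiff_iff_contDiffAt]
    intro y
    by_cases hy : y ∈ Ω
    · exact (χ.contDiff (n := 1)).contDiffAt.mul (hw y hy)
    · have hy' : y ∉ tsupport χ := by
        rw [χ.tsupport_eq]
        exact fun h => hy (hρΩ h)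
      have h0 : (fun y => χ y * w y) =ᶠ[𝓝 y] fun _ => 0 := by
        filter_upwards [notMem_tsupport_iff_eventuallyEq.1 hy'] with z hz
        rw [hz]; simp
      exact contDiffAt_const.congr_of_eventuallyEq h0
  have hw1 : ContDiff ℝ 1 fun y => χ y * u y := hmulc u h1
  have hg1 : ContDiff ℝ 1 fun y => χ y * f (u y) :=
    hmulc (fun y => f (u y)) fun y hy => hf.contDiffAt.comp y (h1 y hy)
  have hcw : HasCompactSupport fun y => χ y * u y := χ.hasCompactSupport.mul_right
  have hcg : HasCompactSupport fun y => χ y * f (u y) := χ.hasCompactSupport.mul_right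
  have hcd : ContDiff ℝ 2 fun x => (avg (fun y => χ y * u y) x (ρ / 2)
      + src (fun y => χ y * f (u y)) x (ρ / 2)) / ∫ z, Psi n z :=
    ((contDiff_two_avg hw1 hcw (half_pos hρ)).add
      (contDiff_two_src hg1 hcg (half_pos hρ))).div_const _
  refine hcd.contDiffAt.congr_of_eventuallyEq ?_
  filter_upwards [ball_mem_nhds x₀ hρ] with x hx
  have hxB := hsub x₀ x ρ hρ hx
  have hBΩ : ball x₀ (2 * ρ) ⊆ Ω := (ball_subset_closedBall.trans
    (closedBall_subset_closedBall (by linarith))).trans hρΩ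
  have hχ : ∀ y ∈ closedBall x (ρ / 2), χ y = 1 := by
    intro y hy
    exact χ.one_of_mem_closedBall (ball_subset_closedBall (hxB hy))
  refine regularity_eq (half_pos hρ).le
    (hmvi x (hBΩ (hxB (mem_closedBall_self (half_pos hρ).le))) _ (half_pos hρ)
      (hxB.trans hBΩ)) ?_ ?_
  · intro y hy
    simp only [hχ y hy, one_mul]
  · intro y hy
    simp only [hχ y hy, one_mul]

/-- X10: continuity from the mean value identity on the whole space. -/
theorem continuous_of_mvi {w g : Sp n → ℝ} (hw : Measurable w) (hg : Measurable g) {C : ℝ}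
    (hwb : ∀ y, |w y| ≤ C) (hgb : ∀ y, |g y| ≤ C) {r : ℝ} (hr : 0 < r)
    (h : ∀ x, MVI w g x r) : Continuous w := by
  have hcd : ContDiff ℝ 1 fun x => (avg w x r + src g x r) / ∫ z, Psi n z :=
    ((contDiff_one_avg hw hwb hr).add (contDiff_one_src hg hgb hr)).div_const _
  have he : w = fun x => (avg w x r + src g x r) / ∫ z, Psi n z := by
    ext x
    exact regularity_eq hr.le (h x) (fun _ _ => rfl) (fun _ _ => rfl)
  rw [he]
  exact hcd.continuous

end Pool.Agent.Lib.MP_9a9339_an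
end

section

set_option autoImplicit false

open Set Filter Topology Metric InnerProductSpace Laplacian MeasureTheory
open scoped ContDiff

namespace Pool.Agent.Lib.MP_9a9339_an

open Pool.Agent.Lib.MP_2166fc_an (Sp)

variable {n : ℕ}

/-- X3: approximation of bounded continuous functions by test functions. -/
theorem exists_smooth_approx {F : Sp n → ℝ} (hF : Continuous F) {C : ℝ} (hC : ∀ x, |F x| ≤ C)
    (R : ℝ) {ε : ℝ} (hε : 0 < ε) :
    ∃ G : Sp n → ℝ, ContDiff ℝ ∞ G ∧ HasCompactSupport G ∧ (∀ x, |G x| ≤ C) ∧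
      ∀ x ∈ closedBall (0 : Sp n) R, |G x - F x| ≤ ε := by
  have hC0 : 0 ≤ C := (abs_nonneg _).trans (hC 0)
  let χ : ContDiffBump (0 : Sp n) := ⟨|R| + 1, |R| + 2, by positivity, by linarith⟩
  set F₁ : Sp n → ℝ := fun x => χ x * F x with hF₁
  have hF₁c : Continuous F₁ := χ.continuous.mul hF
  have hF₁s : HasCompactSupport F₁ := χ.hasCompactSupport.mul_right
  have hF₁b : ∀ x, |F₁ x| ≤ C := by
    intro x
    rw [hF₁]
    simp only [abs_mul]
    have h1 : |χ x| ≤ 1 := by
      rw [abs_of_nonneg χ.nonneg]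
      exact χ.le_one
    calc |χ x| * |F x| ≤ 1 * C := mul_le_mul h1 (hC x) (abs_nonneg _) zero_le_one
      _ = C := one_mul C
  have hu : UniformContinuous F₁ := hF₁s.uniformContinuous_of_continuous hF₁c
  obtain ⟨δ, hδ, hδF⟩ := Metric.uniformContinuous_iff.mp hu ε hε
  let φ : ContDiffBump (0 : Sp n) := ⟨δ / 2, δ, by positivity, by linarith⟩
  refine ⟨convolution (φ.normed volume) F₁ (ContinuousLinearMap.lsmul ℝ ℝ) volume,
    ?_, ?_, ?_, ?_⟩
  · exact φ.hasCompactSupport_normed.contDiff_convolution_left _ φ.contDiff_normed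
      hF₁c.locallyIntegrable
  · exact φ.hasCompactSupport_normed.convolution _ hF₁s
  · intro x
    have h := dist_convolution_le (μ := volume) (f := φ.normed volume) (g := F₁) (x₀ := x)
      (R := φ.rOut) (ε := C) (z₀ := 0) hC0 φ.support_normed_eq.subset φ.nonneg_normed
      φ.integral_normed hF₁c.aestronglyMeasurable (fun y _ => by
        rw [dist_zero_right, Real.norm_eq_abs]; exact hF₁b y)
    rwa [dist_zero_right, Real.norm_eq_abs] at h
  · intro x hx
    have h := φ.dist_normed_convolution_le (μ := volume) (g := F₁) (x₀ := x) (ε := ε)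
      hF₁c.aestronglyMeasurable (fun y hy => (hδF (mem_ball.mp hy)).le)
    have hx1 : F₁ x = F x := by
      rw [hF₁]
      have : χ x = 1 := χ.one_of_mem_closedBall (by
        rw [mem_closedBall] at hx ⊢
        calc dist x 0 ≤ R := hx
          _ ≤ |R| := le_abs_self R
          _ ≤ |R| + 1 := by linarith)
      simp only [this, one_mul]
    rwa [hx1, Real.dist_eq] at h

end Pool.Agent.Lib.MP_9a9339_an
end

section

set_option autoImplicit false

open Set Filter Topology Metric InnerProductSpace Laplacian MeasureTheory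
open scoped ContDiff

namespace Pool.Agent.Lib.MP_9a9339_an

open Pool.Agent.Lib.MP_2166fc_an (Sp)

variable {n : ℕ}

open scoped SchwartzMap

/-- The multiplier `1/(M + (2π)²|ξ|²)` has temperate growth. -/
theorem schwartz_aux_growth {M : ℝ} (hM : 0 < M) :
    (fun ξ : Sp n => (M + (2 * Real.pi) ^ 2 * ‖ξ‖ ^ 2)⁻¹).HasTemperateGrowth := by
  have h0 : (fun ξ : Sp n => (M + (2 * Real.pi) ^ 2 * ‖ξ‖ ^ 2)⁻¹)
      = fun ξ : Sp n => M⁻¹ * (1 + ‖(2 * Real.pi / Real.sqrt M) • ξ‖ ^ 2) ^ (-1 : ℝ) := by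
    funext ξ
    rw [Real.rpow_neg_one, norm_smul, Real.norm_eq_abs, mul_pow (|2 * Real.pi / √M|) ‖ξ‖ 2, sq_abs,
      div_pow, Real.sq_sqrt hM.le, ← mul_inv]
    congr 1
    field_simp
  rw [h0]
  have h1 : (fun ξ : Sp n => (2 * Real.pi / Real.sqrt M) • ξ).HasTemperateGrowth :=
    ((2 * Real.pi / Real.sqrt M) • ContinuousLinearMap.id ℝ (Sp n)).hasTemperateGrowth
  have h2 := (Function.hasTemperateGrowth_one_add_norm_sq_rpow (Sp n) (-1 : ℝ)).comp h1
  exact (Function.HasTemperateGrowth.const M⁻¹).mul h2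

/-- X1: the equation `M w - Δ w = F` on the whole space for smooth compactly supported `F`. -/
theorem schwartz_solve {M : ℝ} (hM : 0 < M) {F : Sp n → ℝ} (hF : ContDiff ℝ ∞ F)
    (hFc : HasCompactSupport F) :
    ∃ w : Sp n → ℝ, ContDiff ℝ 2 w ∧ Tendsto w (cocompact (Sp n)) (𝓝 0) ∧
      ∀ x, M * w x - Δ w x = F x := by
  have hc : HasCompactSupport (fun x => ((F x : ℝ) : ℂ)) :=
    hFc.comp_left (g := fun t : ℝ => (t : ℂ)) (by simp)
  have hs : ContDiff ℝ ∞ (fun x => ((F x : ℝ) : ℂ)) :=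
    Complex.ofRealCLM.contDiff.comp hF
  set FC : 𝓢(Sp n, ℂ) := hc.toSchwartzMap hs with hFC
  set m : Sp n → ℝ := fun ξ => (M + (2 * Real.pi) ^ 2 * ‖ξ‖ ^ 2)⁻¹ with hm
  have hmg : m.HasTemperateGrowth := schwartz_aux_growth hM
  set W : 𝓢(Sp n, ℂ) := SchwartzMap.fourierMultiplierCLM ℂ m FC with hW
  have key : M • W - Δ W = FC := by
    have hq : (fun ξ : Sp n => ‖ξ‖ ^ 2).HasTemperateGrowth :=
      Function.hasTemperateGrowth_norm_sq (Sp n)
    have h1 : M • W = SchwartzMap.fourierMultiplierCLM ℂ (M • m) FC := by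
      rw [SchwartzMap.fourierMultiplierCLM_smul hmg]; rfl
    have h2 : Δ W = -((2 * Real.pi) ^ 2 • SchwartzMap.fourierMultiplierCLM ℂ
        ((fun ξ : Sp n => ‖ξ‖ ^ 2) * m) FC) := by
      rw [SchwartzMap.laplacian_eq_fourierMultiplierCLM, hW, ← neg_smul,
        ← SchwartzMap.fourierMultiplierCLM_fourierMultiplierCLM_apply hq hmg]
    have h3 : ((2 * Real.pi) ^ 2 • SchwartzMap.fourierMultiplierCLM ℂ
        ((fun ξ : Sp n => ‖ξ‖ ^ 2) * m) FC) = SchwartzMap.fourierMultiplierCLM ℂ
        (((2 * Real.pi) ^ 2) • ((fun ξ : Sp n => ‖ξ‖ ^ 2) * m)) FC := by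
      rw [SchwartzMap.fourierMultiplierCLM_smul (hq.mul hmg)]; rfl
    have hMm : (M • m).HasTemperateGrowth :=
      (Function.HasTemperateGrowth.const M).mul hmg
    have hQm : (((2 * Real.pi) ^ 2) • ((fun ξ : Sp n => ‖ξ‖ ^ 2) * m)).HasTemperateGrowth :=
      (Function.HasTemperateGrowth.const ((2 * Real.pi) ^ 2)).mul (hq.mul hmg)
    rw [h2, sub_neg_eq_add, h1, h3, SchwartzMap.fourierMultiplierCLM_apply,
      SchwartzMap.fourierMultiplierCLM_apply, ← FourierTransform.fourierInv_add,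
      ← _root_.add_apply, ← SchwartzMap.smulLeftCLM_add hMm hQm]
    have h4 : M • m + ((2 * Real.pi) ^ 2) • ((fun ξ : Sp n => ‖ξ‖ ^ 2) * m)
        = fun _ : Sp n => (1 : ℝ) := by
      funext ξ
      have h5 : M + (2 * Real.pi) ^ 2 * ‖ξ‖ ^ 2 ≠ 0 := by positivity
      simp only [hm, Pi.add_apply, Pi.smul_apply, Pi.mul_apply, smul_eq_mul]
      field_simp
    rw [h4]
    simp
  refine ⟨fun x => (W x).re, ?_, ?_, ?_⟩
  · exact Complex.reCLM.contDiff.comp (W.smooth 2)
  · have h1 := W.toZeroAtInfty.zero_at_infty'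
    have h2 := (Complex.continuous_re.tendsto 0).comp h1
    rw [Complex.zero_re] at h2
    exact h2
  · intro x
    have h1 : Δ (fun x => (W x).re) x = (Δ (W : Sp n → ℂ) x).re := by
      have h := (W.smooth 2).contDiffAt (x := x) |>.laplacian_CLM_comp_left
        (l := Complex.reCLM)
      exact h
    rw [h1, ← SchwartzMap.laplacian_apply]
    have h2 := congrArg (fun G : 𝓢(Sp n, ℂ) => (G x).re) key
    simpa [hFC] using h2

end Pool.Agent.Lib.MP_9a9339_an
end

section

set_option autoImplicit false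

open Set Filter Topology Metric InnerProductSpace Laplacian MeasureTheory
open scoped ContDiff

namespace Pool.Agent.Lib.MP_9a9339_an

open Pool.Agent.Lib.MP_2166fc_an (Sp)

variable {n : ℕ}

lemma resolvent_contDiff_sq (a b : ℝ) :
    ContDiff ℝ 2 (fun y : Sp n => a + b * (‖y - 0‖ ^ 2)) := by
  have h1 : ContDiff ℝ 2 (fun y : Sp n => ‖y - 0‖ ^ 2) :=
    (contDiff_id.sub contDiff_const).norm_sq ℝ
  exact contDiff_const.add (contDiff_const.mul h1)

lemma resolvent_lap_sq (a b : ℝ) (x : Sp n) :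
    Δ (fun y : Sp n => a + b * (‖y - 0‖ ^ 2)) x = 2 * n * b := by
  have h := Pool.Agent.Lib.MP_2166fc_an.lap_radial (n := n) (Ψ := fun q => a + b * q)
    (Ψ1 := fun _ => b) (b := 0) (x0 := 0) (x := x) ?_ ?_
  · rw [h]; ring
  · refine Eventually.of_forall fun q => ?_
    have h1 := ((hasDerivAt_id q).const_mul b).const_add a
    simpa using h1
  · exact hasDerivAt_const _ _

/-- The comparison principle for `M - Δ` and functions vanishing at infinity. -/
lemma resolvent_comparison {M : ℝ} (hM : 0 < M) {v b : Sp n → ℝ} (hv : ContDiff ℝ 2 v)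
    (hb : ContDiff ℝ 2 b) (hv0 : Tendsto v (cocompact (Sp n)) (𝓝 0)) (hb0 : ∀ x, 0 ≤ b x)
    (h : ∀ x, M * v x - Δ v x ≤ M * b x - Δ b x) (x₀ : Sp n) : v x₀ ≤ b x₀ := by
  by_contra hcon
  push Not at hcon
  have hcont : Continuous (fun x => v x - b x) := hv.continuous.sub hb.continuous
  have hev : ∀ᶠ x in cocompact (Sp n), v x - b x ≤ v x₀ - b x₀ := by
    have h1 : ∀ᶠ x in cocompact (Sp n), v x < v x₀ - b x₀ :=
      hv0.eventually (gt_mem_nhds (by linarith))
    filter_upwards [h1] with x hx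
    linarith [hb0 x]
  obtain ⟨x₁, hx₁⟩ := hcont.exists_forall_ge' x₀ hev
  have hmin : IsLocalMin (fun x => b x - v x) x₁ := by
    refine Eventually.of_forall fun y => ?_
    have := hx₁ y
    simp only
    linarith
  have hlap := Pool.Agent.Lib.MP_2166fc_an.lap_nonneg_of_isLocalMin
    ((hb.sub hv).contDiffAt (x := x₁)) hmin
  have e1 : Δ (fun x => b x - v x) x₁ = Δ b x₁ - Δ v x₁ :=
    hb.contDiffAt.laplacian_sub hv.contDiffAt
  rw [e1] at hlap
  have h2 := h x₁
  have h3 := hx₁ x₀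
  nlinarith

/-- X4 (weighted bound). -/
theorem resolvent_bound {M δ C R : ℝ} (hM : 0 < M) (hR : 0 < R) (hδ : 0 ≤ δ) (hC : 0 ≤ C)
    {w : Sp n → ℝ} (hw : ContDiff ℝ 2 w) (hw0 : Tendsto w (cocompact (Sp n)) (𝓝 0))
    (h1 : ∀ x ∈ closedBall (0 : Sp n) R, |M * w x - Δ w x| ≤ δ)
    (h2 : ∀ x, |M * w x - Δ w x| ≤ C) (x : Sp n) :
    |w x| ≤ δ / M + C / (M * R ^ 2) * (‖x‖ ^ 2 + 2 * n / M) := by
  set a : ℝ := δ / M + C / (M * R ^ 2) * (2 * n / M) with ha
  set c : ℝ := C / (M * R ^ 2) with hc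
  have hc0 : 0 ≤ c := by rw [hc]; positivity
  have ha0 : 0 ≤ a := by rw [ha]; positivity
  set b : Sp n → ℝ := fun y => a + c * (‖y - 0‖ ^ 2) with hb
  have hbC : ContDiff ℝ 2 b := resolvent_contDiff_sq a c
  have hb0 : ∀ y, 0 ≤ b y := fun y => by
    simp only [hb]; positivity
  have hbL : ∀ y, M * b y - Δ b y = δ + C / R ^ 2 * ‖y‖ ^ 2 := by
    intro y
    have e : Δ b y = 2 * n * c := resolvent_lap_sq a c y
    rw [e]
    simp only [hb, ha, hc, sub_zero]
    field_simp
    ring
  have hbig : ∀ y, |M * w y - Δ w y| ≤ M * b y - Δ b y := by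
    intro y
    rw [hbL]
    by_cases hy : ‖y‖ ≤ R
    · have := h1 y (by simpa using hy)
      have : 0 ≤ C / R ^ 2 * ‖y‖ ^ 2 := by positivity
      linarith
    · push Not at hy
      have h3 := h2 y
      have h4 : R ^ 2 ≤ ‖y‖ ^ 2 := by gcongr
      have h5 : C / R ^ 2 * R ^ 2 ≤ C / R ^ 2 * ‖y‖ ^ 2 :=
        mul_le_mul_of_nonneg_left h4 (by positivity)
      rw [div_mul_cancel₀ _ (by positivity)] at h5
      linarith
  have e0 : δ / M + C / (M * R ^ 2) * (‖x‖ ^ 2 + 2 * n / M) = b x := by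
    simp only [hb, ha, hc, sub_zero]
    ring
  rw [e0, abs_le]
  constructor
  · have hneg : ContDiff ℝ 2 (fun y => - w y) := hw.neg
    have h6 := resolvent_comparison hM hneg hbC (by simpa using hw0.neg) hb0 ?_ x
    · linarith
    · intro y
      have e1 : Δ (fun y => - w y) y = - Δ w y := by
        have := laplacian_neg (f := w)
        exact congrFun this y
      rw [e1]
      have := hbig y
      have h8 := neg_abs_le (M * w y - Δ w y)
      linarith
  · exact resolvent_comparison hM hw hbC hw0 hb0 (fun y => (le_abs_self _).trans (hbig y)) x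

/-- X4: the resolvent on bounded continuous functions. -/
theorem exists_resolvent {M : ℝ} (hM : 0 < M) {F : Sp n → ℝ} (hF : Continuous F) {C : ℝ}
    (hC : ∀ x, |F x| ≤ C) :
    ∃ w : Sp n → ℝ, Continuous w ∧ (∀ x, |w x| ≤ C / M) ∧
      ∀ x r, 0 < r → MVI w (fun y => F y - M * w y) x r := by
  have hC0 : 0 ≤ C := (abs_nonneg _).trans (hC 0)
  have hpos : ∀ k : ℕ, (0 : ℝ) < (k : ℝ) + 1 := fun k => by positivity
  have hG := fun k : ℕ => exists_smooth_approx hF hC ((k : ℝ) + 1)
    (ε := 1 / ((k : ℝ) + 1)) (by have := hpos k; positivity)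
  choose G hGs hGc hGb hGF using hG
  have hW := fun k : ℕ => schwartz_solve hM (hGs k) (hGc k)
  choose W hWs hW0 hWe using hW
  -- the bound for the difference
  set B : ℕ → ℝ → ℝ := fun k ρ => (2 / ((k : ℝ) + 1)) / M +
    (2 * C) / (M * ((k : ℝ) + 1) ^ 2) * (ρ ^ 2 + 2 * n / M) with hB
  have hdiff : ∀ N k j : ℕ, N ≤ k → N ≤ j → ∀ x, |W k x - W j x| ≤ B N ‖x‖ := by
    intro N k j hk hj x
    have hcd : ContDiff ℝ 2 (fun y => W k y - W j y) := (hWs k).sub (hWs j)
    have ht : Tendsto (fun y => W k y - W j y) (cocompact (Sp n)) (𝓝 0) := by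
      simpa using (hW0 k).sub (hW0 j)
    have he : ∀ y, M * (W k y - W j y) - Δ (fun y => W k y - W j y) y = G k y - G j y := by
      intro y
      have e1 : Δ (fun y => W k y - W j y) y = Δ (W k) y - Δ (W j) y :=
        (hWs k).contDiffAt.laplacian_sub (hWs j).contDiffAt
      rw [e1, ← hWe k, ← hWe j]
      ring
    have hNk : (N : ℝ) + 1 ≤ (k : ℝ) + 1 := by exact_mod_cast Nat.succ_le_succ hk
    have hNj : (N : ℝ) + 1 ≤ (j : ℝ) + 1 := by exact_mod_cast Nat.succ_le_succ hj
    have hmain := resolvent_bound (δ := 2 / ((N : ℝ) + 1)) (C := 2 * C) (R := (N : ℝ) + 1) hM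
      (hpos N) (by have := hpos N; positivity) (by positivity) hcd ht ?_ ?_ x
    · simpa only [hB] using hmain
    · intro y hy
      rw [he]
      have hyk : y ∈ closedBall (0 : Sp n) ((k : ℝ) + 1) := closedBall_subset_closedBall hNk hy
      have hyj : y ∈ closedBall (0 : Sp n) ((j : ℝ) + 1) := closedBall_subset_closedBall hNj hy
      have a1 := hGF k y hyk
      have a2 := hGF j y hyj
      have b1 : 1 / ((k : ℝ) + 1) ≤ 1 / ((N : ℝ) + 1) := one_div_le_one_div_of_le (hpos N) hNk
      have b2 : 1 / ((j : ℝ) + 1) ≤ 1 / ((N : ℝ) + 1) := one_div_le_one_div_of_le (hpos N) hNj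
      have b3 : 2 / ((N : ℝ) + 1) = 1 / ((N : ℝ) + 1) + 1 / ((N : ℝ) + 1) := by ring
      have a3 : G k y - G j y = (G k y - F y) - (G j y - F y) := by ring
      rw [a3, b3]
      exact (abs_sub _ _).trans (add_le_add (a1.trans b1) (a2.trans b2))
    · intro y
      rw [he]
      have a1 := hGb k y
      have a2 := hGb j y
      calc |G k y - G j y| ≤ |G k y| + |G j y| := abs_sub _ _
        _ ≤ 2 * C := by linarith
  have hBlim : ∀ ρ : ℝ, Tendsto (fun k => B k ρ) atTop (𝓝 0) := by
    intro ρ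
    have h0 : Tendsto (fun k : ℕ => 1 / ((k : ℝ) + 1)) atTop (𝓝 0) :=
      tendsto_one_div_add_atTop_nhds_zero_nat
    have h1 : Tendsto (fun k : ℕ => 2 / M * (1 / ((k : ℝ) + 1)) +
        2 * C / M * (ρ ^ 2 + 2 * n / M) * (1 / ((k : ℝ) + 1)) ^ 2) atTop (𝓝 0) := by
      have := (h0.const_mul (2 / M)).add ((h0.pow 2).const_mul (2 * C / M * (ρ ^ 2 + 2 * n / M)))
      simpa using this
    refine h1.congr fun k => ?_
    have := hpos k
    simp only [hB]
    field_simp
  have hcau : ∀ x, CauchySeq (fun k => W k x) := by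
    intro x
    refine cauchySeq_of_le_tendsto_0 (fun N => B N ‖x‖) ?_ (hBlim _)
    intro k j N hk hj
    rw [Real.dist_eq]
    exact hdiff N k j hk hj x
  choose w hw using fun x => cauchySeq_tendsto_of_complete (hcau x)
  have hwB : ∀ k x, |w x - W k x| ≤ B k ‖x‖ := by
    intro k x
    have h1 : Tendsto (fun j => |W j x - W k x|) atTop (𝓝 |w x - W k x|) :=
      ((hw x).sub_const _).abs
    refine le_of_tendsto h1 ?_
    filter_upwards [eventually_ge_atTop k] with j hj
    exact hdiff k j k hj le_rfl x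
  have hWC : ∀ k x, |W k x| ≤ C / M := by
    intro k x
    have h1 : ∀ j : ℕ, |W k x| ≤ C / M +
        C / M * (‖x‖ ^ 2 + 2 * n / M) * (1 / ((j : ℝ) + 1)) ^ 2 := by
      intro j
      have h2 := resolvent_bound (δ := C) (C := C) (R := (j : ℝ) + 1) hM (hpos j) hC0 hC0
        (hWs k) (hW0 k) (fun y _ => by rw [hWe]; exact hGb k y)
        (fun y => by rw [hWe]; exact hGb k y) x
      refine h2.trans (le_of_eq ?_)
      have := hpos j
      field_simp
    have h3 : Tendsto (fun j : ℕ => C / M +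
        C / M * (‖x‖ ^ 2 + 2 * n / M) * (1 / ((j : ℝ) + 1)) ^ 2) atTop (𝓝 (C / M)) := by
      have h0 : Tendsto (fun k : ℕ => 1 / ((k : ℝ) + 1)) atTop (𝓝 0) :=
        tendsto_one_div_add_atTop_nhds_zero_nat
      have := ((h0.pow 2).const_mul (C / M * (‖x‖ ^ 2 + 2 * n / M))).const_add (C / M)
      simpa using this
    exact ge_of_tendsto' h3 h1
  refine ⟨w, ?_, ?_, ?_⟩
  · -- continuity
    have hloc : TendstoLocallyUniformly (fun k x => W k x) w atTop := by
      rw [tendstoLocallyUniformly_iff_forall_isCompact]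
      intro K hK
      rw [Metric.tendstoUniformlyOn_iff]
      intro ε hε
      obtain ⟨ρ, hρ⟩ := hK.isBounded.exists_norm_le
      have hev : ∀ᶠ k in atTop, B k ρ < ε := (hBlim ρ).eventually (gt_mem_nhds hε)
      filter_upwards [hev] with k hk x hx
      rw [Real.dist_eq]
      refine lt_of_le_of_lt (hwB k x) (lt_of_le_of_lt ?_ hk)
      have hx' := hρ x hx
      have := hpos k
      simp only [hB]
      gcongr
    exact hloc.continuous (Frequently.of_forall fun k => (hWs k).continuous)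
  · intro x
    exact le_of_tendsto (hw x).abs (Eventually.of_forall fun k => hWC k x)
  · intro x r hr
    refine mvi_of_tendsto (w := W) (g := fun k y => G k y - M * W k y) (C := C / M + 2 * C) hr
      (fun k => (hWs k).continuous.measurable)
      (fun k => ((hGs k).continuous.sub (continuous_const.mul (hWs k).continuous)).measurable)
      ?_ ?_ ?_ ?_ ?_
    · intro k y _
      have := hWC k y
      linarith
    · intro k y _
      have a1 := hGb k y
      have a2 := hWC k y
      have a3 : |M * W k y| ≤ C := by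
        rw [abs_mul, abs_of_pos hM]
        calc M * |W k y| ≤ M * (C / M) := mul_le_mul_of_nonneg_left a2 hM.le
          _ = C := by field_simp
      have a4 : 0 ≤ C / M := by positivity
      have a5 := abs_sub (G k y) (M * W k y)
      linarith
    · intro y _
      exact hw y
    · intro y _
      have hGlim : Tendsto (fun k => G k y) atTop (𝓝 (F y)) := by
        rw [tendsto_iff_dist_tendsto_zero]
        obtain ⟨N, hN⟩ := exists_nat_ge ‖y‖
        refine squeeze_zero' (Eventually.of_forall fun k => dist_nonneg)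
          (g := fun k : ℕ => 1 / ((k : ℝ) + 1)) ?_ tendsto_one_div_add_atTop_nhds_zero_nat
        filter_upwards [eventually_ge_atTop N] with k hk
        rw [Real.dist_eq]
        apply hGF
        rw [mem_closedBall_zero_iff]
        have : (N : ℝ) ≤ k := by exact_mod_cast hk
        linarith
      exact hGlim.sub ((hw y).const_mul M)
    · intro k
      have h1 := mvi_of_contDiff (hWs k) x r
      have h2 : (fun y => - Δ (W k) y) = fun y => G k y - M * W k y := by
        funext y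
        rw [← hWe k y]
        ring
      rwa [h2] at h1

end Pool.Agent.Lib.MP_9a9339_an
end

section

set_option autoImplicit false

open Set Filter Topology Metric InnerProductSpace Laplacian MeasureTheory
open scoped ContDiff

namespace Pool.Agent.Lib.MP_9a9339_an

open Pool.Agent.Lib.MP_2166fc_an (Sp)

variable {n : ℕ}

lemma iter_f_zero {f : ℝ → ℝ} {c L : ℝ} (hf : React f c L) : f 0 = 0 := by
  have h0 : (0:ℝ) ∈ Icc (0:ℝ) 1 := ⟨le_rfl, zero_le_one⟩
  have h1 := hf.lower 0 h0
  have h2 := hf.upper0 0 h0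
  simp only [zero_mul, mul_zero] at h1 h2
  exact le_antisymm h2 h1

lemma iter_f_one {f : ℝ → ℝ} {c L : ℝ} (hf : React f c L) : f 1 = 0 := by
  have h0 : (1:ℝ) ∈ Icc (0:ℝ) 1 := ⟨zero_le_one, le_rfl⟩
  have h1 := hf.lower 1 h0
  have h2 := hf.upper1 1 h0
  simp only [sub_self, mul_zero] at h1 h2
  exact le_antisymm h2 h1

/-- The right-hand side of the linear problem. -/
noncomputable def iterRhs (f : ℝ → ℝ) (L K : ℝ) (χ v : Sp n → ℝ) (y : Sp n) : ℝ :=
  (L + K) * v y + pen f K χ v y

section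
variable {f : ℝ → ℝ} {c L K : ℝ} {χ : Sp n → ℝ}

lemma iter_cont (hfc : Continuous f) (hχ : Weight χ) {v : Sp n → ℝ} (hv : Continuous v) :
    Continuous (iterRhs f L K χ v) := by
  have h1 := hχ.cont
  unfold iterRhs pen
  fun_prop

lemma iter_mono (hf : React f c L) (hχ : Weight χ) (hK : 0 ≤ K) {v v' : Sp n → ℝ} {y : Sp n}
    (h0 : 0 ≤ v y) (h1 : v' y ≤ 1) (hvv : v y ≤ v' y) :
    iterRhs f L K χ v y ≤ iterRhs f L K χ v' y := by
  have hs : v y ∈ Icc (0:ℝ) 1 := ⟨h0, hvv.trans h1⟩
  have ht : v' y ∈ Icc (0:ℝ) 1 := ⟨h0.trans hvv, h1⟩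
  have h2 := hf.lip _ ht _ hs
  rw [abs_of_nonneg (sub_nonneg.2 hvv)] at h2
  have h3 := (abs_le.1 h2).1
  have h4 : K * χ y * (v' y - v y) ≤ K * (v' y - v y) := by
    apply mul_le_mul_of_nonneg_right _ (sub_nonneg.2 hvv)
    exact mul_le_of_le_one_right hK (hχ.le_one y)
  unfold iterRhs pen
  nlinarith

lemma iter_zero (hf : React f c L) (y : Sp n) : iterRhs f L K χ (fun _ => 0) y = 0 := by
  unfold iterRhs pen
  simp [iter_f_zero hf]

lemma iter_one_le (hf : React f c L) (hχ : Weight χ) (hK : 0 ≤ K) (y : Sp n) :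
    iterRhs f L K χ (fun _ => 1) y ≤ L + K := by
  unfold iterRhs pen
  simp only [iter_f_one hf, mul_one, zero_sub]
  have := mul_nonneg hK (hχ.nonneg y)
  linarith

lemma iter_bounds (hf : React f c L) (hχ : Weight χ) (hK : 0 ≤ K) {v : Sp n → ℝ} (y : Sp n)
    (h0 : 0 ≤ v y) (h1 : v y ≤ 1) :
    0 ≤ iterRhs f L K χ v y ∧ iterRhs f L K χ v y ≤ L + K := by
  constructor
  · have h := iter_mono (v := fun _ => 0) (v' := v) hf hχ hK (y := y) le_rfl h1 h0
    rwa [iter_zero hf] at h
  · exact (iter_mono (v := v) (v' := fun _ => 1) hf hχ hK (y := y) h0 le_rfl h1).trans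
      (iter_one_le hf hχ hK y)

lemma iter_mvi_const (a : ℝ) (x : Sp n) (r : ℝ) : MVI (fun _ : Sp n => a) (fun _ => 0) x r := by
  have h1 := mvi_of_contDiff (h := fun _ : Sp n => a) contDiff_const x r
  have h2 : (fun y : Sp n => - Δ (fun _ : Sp n => a) y) = fun _ => 0 := by
    funext y
    have := congrFun (laplacian_const (E := Sp n) (c := a)) y
    rw [this]
    simp
  rwa [h2] at h1

/-- One step of the iteration. -/
lemma iter_exists_step (hf : React f c L) (hfc : Continuous f) (hχ : Weight χ) (hK : 0 ≤ K)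
    {v : Sp n → ℝ} (hv : Continuous v) (hv01 : ∀ x, 0 ≤ v x ∧ v x ≤ 1) :
    ∃ w : Sp n → ℝ, (Continuous w ∧ ∀ x, 0 ≤ w x ∧ w x ≤ 1) ∧
      ∀ x r, 0 < r → MVI w (fun y => iterRhs f L K χ v y - (L + K) * w y) x r := by
  have hM : 0 < L + K := by linarith [hf.L_pos]
  have hFc := iter_cont (L := L) (K := K) hfc hχ hv
  have hFb : ∀ x, |iterRhs f L K χ v x| ≤ L + K := fun x => by
    have := iter_bounds (L := L) hf hχ hK x (hv01 x).1 (hv01 x).2
    rw [abs_of_nonneg this.1]
    exact this.2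
  obtain ⟨w, hwc, hwb, hwm⟩ := exists_resolvent hM hFc hFb
  have hwb' : ∀ x, |w x| ≤ 1 := fun x => by
    have := hwb x
    rwa [div_self hM.ne'] at this
  refine ⟨w, ⟨hwc, fun x => ⟨?_, (le_abs_self _).trans (hwb' x)⟩⟩, hwm⟩
  refine mvi_comparison (M := L + K) hM (w₁ := fun _ => 0) (w₂ := w) (F₁ := fun _ => 0)
    (F₂ := iterRhs f L K χ v) (C := 1) continuous_const hwc continuous_const hFc
    (fun x => by simp) hwb' (fun x r _ => ?_) hwm
    (fun x => (iter_bounds hf hχ hK x (hv01 x).1 (hv01 x).2).1) x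
  simpa using iter_mvi_const (n := n) 0 x r

lemma iter_step_mono (hf : React f c L) (hfc : Continuous f) (hχ : Weight χ) (hK : 0 ≤ K)
    {v v' w w' : Sp n → ℝ} (hv : Continuous v) (hv' : Continuous v') (hv0 : ∀ x, 0 ≤ v x)
    (hv1 : ∀ x, v' x ≤ 1) (hvv : ∀ x, v x ≤ v' x) (hw : Continuous w) (hw' : Continuous w')
    {C : ℝ} (hwb : ∀ x, |w x| ≤ C) (hwb' : ∀ x, |w' x| ≤ C)
    (hm : ∀ x r, 0 < r → MVI w (fun y => iterRhs f L K χ v y - (L + K) * w y) x r)
    (hm' : ∀ x r, 0 < r → MVI w' (fun y => iterRhs f L K χ v' y - (L + K) * w' y) x r)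
    (x : Sp n) : w x ≤ w' x := by
  have hM : 0 < L + K := by linarith [hf.L_pos]
  exact mvi_comparison hM hw hw' (iter_cont hfc hχ hv) (iter_cont hfc hχ hv') hwb hwb' hm hm'
    (fun y => iter_mono hf hχ hK (hv0 y) (hv1 y) (hvv y)) x

end

/-- X12: the maximal solution of the penalised problem. -/
theorem exists_penalised {f : ℝ → ℝ} {c L : ℝ} (hf : React f c L) (hfc : Continuous f)
    {χ : Sp n → ℝ} (hχ : Weight χ) {K : ℝ} (hK : 0 ≤ K) :
    ∃ u : Sp n → ℝ, PenSol f K χ u ∧
      ∀ v : Sp n → ℝ, Continuous v → (∀ x, 0 ≤ v x ∧ v x ≤ 1) → PenSub f L K χ v →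
        ∀ x, v x ≤ u x := by
  have hM : 0 < L + K := by linarith [hf.L_pos]
  choose T hT hTm using fun v : {v : Sp n → ℝ // Continuous v ∧ ∀ x, 0 ≤ v x ∧ v x ≤ 1} =>
    iter_exists_step (L := L) (K := K) hf hfc hχ hK v.2.1 v.2.2
  let X := {v : Sp n → ℝ // Continuous v ∧ ∀ x, 0 ≤ v x ∧ v x ≤ 1}
  let S : X → X := fun v => ⟨T v, hT v⟩
  let one : X := ⟨fun _ => 1, continuous_const, fun _ => ⟨zero_le_one, le_rfl⟩⟩
  let U : ℕ → X := fun k => S^[k] one
  have hUs : ∀ k, U (k + 1) = S (U k) := fun k => Function.iterate_succ_apply' S k one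
  have hU01 : ∀ k x, 0 ≤ (U k).1 x ∧ (U k).1 x ≤ 1 := fun k x => (U k).2.2 x
  have hUc : ∀ k, Continuous (U k).1 := fun k => (U k).2.1
  have hUabs : ∀ k x, |(U k).1 x| ≤ 1 := fun k x => by
    rw [abs_of_nonneg (hU01 k x).1]; exact (hU01 k x).2
  have hUm : ∀ k x r, 0 < r →
      MVI (U (k + 1)).1 (fun y => iterRhs f L K χ (U k).1 y - (L + K) * (U (k + 1)).1 y) x r := by
    intro k x r hr
    rw [hUs k]
    exact hTm (U k) x r hr
  have hdec : ∀ k x, (U (k + 1)).1 x ≤ (U k).1 x := by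
    intro k
    induction k with
    | zero => exact fun x => (hU01 1 x).2
    | succ k ih =>
      intro x
      exact iter_step_mono hf hfc hχ hK (hUc (k + 1)) (hUc k) (fun y => (hU01 (k + 1) y).1)
        (fun y => (hU01 k y).2) ih (hUc (k + 2)) (hUc (k + 1)) (hUabs (k + 2)) (hUabs (k + 1))
        (hUm (k + 1)) (hUm k) x
  have hanti : ∀ x, Antitone fun k => (U k).1 x := fun x =>
    antitone_nat_of_succ_le fun k => hdec k x
  have hbdd : ∀ x, BddBelow (range fun k => (U k).1 x) := fun x =>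
    ⟨0, by rintro _ ⟨k, rfl⟩; exact (hU01 k x).1⟩
  set u : Sp n → ℝ := fun x => ⨅ k, (U k).1 x with hu
  have htend : ∀ x, Tendsto (fun k => (U k).1 x) atTop (𝓝 (u x)) := fun x =>
    tendsto_atTop_ciInf (hanti x) (hbdd x)
  have hu0 : ∀ x, 0 ≤ u x := fun x => le_ciInf fun k => (hU01 k x).1
  have hu1 : ∀ x, u x ≤ 1 := fun x => (ciInf_le (hbdd x) 0).trans (hU01 0 x).2
  have hum : Measurable u := Measurable.iInf fun k => (hUc k).measurable
  have hrhs : ∀ y, iterRhs f L K χ u y - (L + K) * u y = pen f K χ u y := by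
    intro y
    unfold iterRhs
    ring
  have hmvi : ∀ x r, 0 < r → MVI u (pen f K χ u) x r := by
    intro x r hr
    refine mvi_of_tendsto (w := fun k => (U (k + 1)).1)
      (g := fun k y => iterRhs f L K χ (U k).1 y - (L + K) * (U (k + 1)).1 y)
      (C := max 1 (2 * (L + K))) hr
      (fun k => (hUc (k + 1)).measurable) (fun k => ?_) (fun k y _ => ?_) (fun k y _ => ?_)
      (fun y _ => (htend y).comp (tendsto_add_atTop_nat 1)) (fun y _ => ?_)
      (fun k => hUm k x r hr)
    · exact ((iter_cont hfc hχ (hUc k)).sub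
        (continuous_const.mul (hUc (k + 1)))).measurable
    · exact (hUabs (k + 1) y).trans (le_max_left _ _)
    · refine le_trans ?_ (le_max_right _ _)
      have h1 := iter_bounds (L := L) hf hχ hK y (hU01 k y).1 (hU01 k y).2
      have h2 := hU01 (k + 1) y
      have h3 : 0 ≤ (L + K) * (U (k + 1)).1 y := mul_nonneg hM.le h2.1
      have h4 : (L + K) * (U (k + 1)).1 y ≤ L + K := mul_le_of_le_one_right hM.le h2.2
      rw [abs_le]
      constructor <;> linarith [h1.1, h1.2]
    · rw [← hrhs y]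
      have h1 := htend y
      have h2 := (htend y).comp (tendsto_add_atTop_nat 1)
      have h3 : Tendsto (fun k => iterRhs f L K χ (U k).1 y) atTop
          (𝓝 (iterRhs f L K χ u y)) := by
        unfold iterRhs pen
        exact (h1.const_mul _).add (((hfc.tendsto (u y)).comp h1).sub (h1.const_mul _))
      exact h3.sub (h2.const_mul _)
  have hpenm : Measurable (pen f K χ u) := by
    unfold pen
    have h1 := hχ.cont.measurable
    have h2 := hfc.measurable.comp hum
    exact h2.sub ((h1.const_mul K).mul hum)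
  have hpenb : ∀ y, |pen f K χ u y| ≤ max 1 (L + K) := by
    intro y
    refine le_trans ?_ (le_max_right _ _)
    have hmem : u y ∈ Icc (0:ℝ) 1 := ⟨hu0 y, hu1 y⟩
    have h1 := hf.lower _ hmem
    have h2 := hf.upper0 _ hmem
    have h3 : 0 ≤ c * (u y * (1 - u y)) :=
      mul_nonneg hf.c_pos.le (mul_nonneg hmem.1 (sub_nonneg.2 hmem.2))
    have h4 : L * u y ≤ L := mul_le_of_le_one_right hf.L_pos.le hmem.2
    have h5 : 0 ≤ K * χ y * u y := mul_nonneg (mul_nonneg hK (hχ.nonneg y)) hmem.1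
    have h6 : K * χ y * u y ≤ K := by
      calc K * χ y * u y ≤ K * 1 * 1 := by
            apply mul_le_mul _ hmem.2 hmem.1 (by linarith)
            exact mul_le_mul_of_nonneg_left (hχ.le_one y) hK
        _ = K := by ring
    unfold pen
    have hL := hf.L_pos
    rw [abs_le]
    constructor <;> linarith
  have hcont : Continuous u :=
    continuous_of_mvi (C := max 1 (L + K)) hum hpenm
      (fun y => by rw [abs_of_nonneg (hu0 y)]; exact (hu1 y).trans (le_max_left _ _))
      hpenb one_pos (fun x => hmvi x 1 one_pos)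
  refine ⟨u, ⟨hcont, hu0, hu1, hmvi⟩, ?_⟩
  intro v hv hv01 hsub x
  have hle : ∀ k x, v x ≤ (U k).1 x := by
    intro k
    induction k with
    | zero => exact fun x => (hv01 x).2
    | succ k ih =>
      intro x
      obtain ⟨w, ⟨hwc, hw01⟩, hwm⟩ := iter_exists_step (L := L) (K := K) hf hfc hχ hK hv hv01
      have hwabs : ∀ x, |w x| ≤ 1 := fun x => by
        rw [abs_of_nonneg (hw01 x).1]; exact (hw01 x).2
      have h1 : v x ≤ w x := hsub w hwc ⟨1, hwabs⟩ hwm x
      have h2 : w x ≤ (U (k + 1)).1 x :=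
        iter_step_mono hf hfc hχ hK hv (hUc k) (fun y => (hv01 y).1) (fun y => (hU01 k y).2)
          ih hwc (hUc (k + 1)) hwabs (hUabs (k + 1)) hwm (hUm k) x
      exact h1.trans h2
  exact le_ciInf fun k => hle k x

end Pool.Agent.Lib.MP_9a9339_an
end
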